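import Pool.Agent.P.MP_8db816_gt.Defs

/-! Open submanifolds: differentials, embeddings, tangent bundles. -/

namespace Pool.Agent.P.MP_8db816_gt

open scoped Manifold ContDiff Topology
open Set Function TopologicalSpace Filter

noncomputable section

section General

variable {E H M E' H' M' E'' H'' M'' : Type} [NormedAddCommGroup E] [NormedSpace ℝ E]
  [TopologicalSpace H] [TopologicalSpace M] [ChartedSpace H M]
  [NormedAddCommGroup E'] [NormedSpace ℝ E'] [TopologicalSpace H'] [TopologicalSpace M']
  [ChartedSpace H' M'] [NormedAddCommGroup E''] [NormedSpace ℝ E''] [TopologicalSpace H'']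
  [TopologicalSpace M''] [ChartedSpace H'' M'']
  {I : ModelWithCorners ℝ E H} {I' : ModelWithCorners ℝ E' H'} {I'' : ModelWithCorners ℝ E'' H''}

/-- The differential with non-dependent type. -/
def md (I : ModelWithCorners ℝ E H) (I' : ModelWithCorners ℝ E' H') (f : M → M') (x : M) :
    E →L[ℝ] E' := mfderiv I I' f x

theorem one_le_inf : (1 : ℕ∞ω) ≤ ∞ := by exact_mod_cast le_top

theorem inf_ne_zero : (∞ : ℕ∞ω) ≠ 0 := by simp

theorem ext_open_apply (U : Opens M) (x y : U) :
    extChartAt I x y = extChartAt I x.1 y.1 := rfl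

theorem ext_symm_val (U : Opens M) (x : U) :
    (extChartAt I x.1).symm =ᶠ[𝓝 (extChartAt I x.1 x.1)]
      Subtype.val ∘ (extChartAt I x).symm := by
  have h := Opens.chartAt_subtype_val_symm_eventuallyEq (H := H) U (x := x)
  have hc : Tendsto I.symm (𝓝 (extChartAt I x.1 x.1)) (𝓝 (chartAt H x.1 x.1)) := by
    have := I.continuous_symm.continuousAt (x := extChartAt I x.1 x.1)
    rw [ContinuousAt] at this
    simpa using this
  exact hc.eventually h

theorem hasMFDerivAt_val (U : Opens M) (x : U) :
    HasMFDerivAt I I (Subtype.val : U → M) x (ContinuousLinearMap.id ℝ E) := by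
  refine ⟨continuous_subtype_val.continuousAt, ?_⟩
  have h1 : writtenInExtChartAt I I x (Subtype.val : U → M) =ᶠ[𝓝[range I] (extChartAt I x x)]
      id := by
    have h2 := (ext_symm_val (I := I) U x).filter_mono (nhdsWithin_le_nhds (s := range I))
    have h3 := extChartAt_target_mem_nhdsWithin (I := I) x.1
    filter_upwards [h2, h3] with y hy hy'
    have : writtenInExtChartAt I I x (Subtype.val : U → M) y =
      extChartAt I x.1 ((extChartAt I x.1).symm y) := by rw [hy]; rfl
    rw [this, (extChartAt I x.1).right_inv hy']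
    rfl
  refine (hasFDerivWithinAt_id _ _).congr_of_eventuallyEq h1 ?_
  exact h1.eq_of_nhdsWithin (extChartAt_target_subset_range x (mem_extChartAt_target x))

theorem md_val (U : Opens M) (x : U) :
    md I I (Subtype.val : U → M) x = ContinuousLinearMap.id ℝ E :=
  (hasMFDerivAt_val U x).mfderiv

theorem md_comp {f : M → M'} {g : M' → M''} {x : M} (hg : ContMDiff I' I'' ∞ g)
    (hf : ContMDiff I I' ∞ f) :
    md I I'' (g ∘ f) x = (md I' I'' g (f x)).comp (md I I' f x) :=
  mfderiv_comp x (hg.mdifferentiableAt inf_ne_zero) (hf.mdifferentiableAt inf_ne_zero)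

theorem contMDiff_cod {U : Opens M'} {f : M → U} (hf : ContMDiff I I' ∞ (Subtype.val ∘ f)) :
    ContMDiff I I' ∞ f := fun x => (ContMDiffAt.subtypeVal_comp_iff U f x).1 (hf x)

theorem md_cod {U : Opens M'} {f : M → U} (hf : ContMDiff I I' ∞ (Subtype.val ∘ f)) (x : M) :
    md I I' f x = md I I' (Subtype.val ∘ f) x := by
  rw [md_comp contMDiff_subtype_val (contMDiff_cod hf), md_val]
  rfl

theorem md_dom {U : Opens M} {f : M → M'} (hf : ContMDiff I I' ∞ f) (x : U) :
    md I I' (f ∘ (Subtype.val : U → M)) x = md I I' f x.1 := by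
  rw [md_comp hf contMDiff_subtype_val, md_val]
  rfl

theorem contMDiff_valProd (U : Opens M) :
    ContMDiff (I.prod I') (I.prod I') ∞ (Prod.map (Subtype.val : U → M) (id : M' → M')) :=
  contMDiff_subtype_val.prodMap contMDiff_id

theorem md_valProd (U : Opens M) (z : U × M') :
    md (I.prod I') (I.prod I') (Prod.map (Subtype.val : U → M) (id : M' → M')) z =
      ContinuousLinearMap.id ℝ (E × E') := by
  have h := ((hasMFDerivAt_val (I := I) U z.1).prodMap (hasMFDerivAt_id (I := I') z.2)).mfderiv
  refine h.trans ?_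
  have h1 : (md I I (Subtype.val : U → M) z.1).prodMap (md I' I' (id : M' → M') z.2) =
      ContinuousLinearMap.id ℝ (E × E') := by
    have h2 : md I' I' (id : M' → M') z.2 = ContinuousLinearMap.id ℝ E' := mfderiv_id
    rw [md_val, h2]
    rfl
  exact h1

theorem md_domProd {U : Opens M} {f : M × M' → M''} (hf : ContMDiff (I.prod I') I'' ∞ f)
    (z : U × M') :
    md (I.prod I') I'' (f ∘ Prod.map (Subtype.val : U → M) (id : M' → M')) z =
      md (I.prod I') I'' f (z.1.1, z.2) := by
  rw [md_comp hf (contMDiff_valProd U), md_valProd]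
  rfl

/-- Restriction of an embedding to open subsets. -/
theorem IsEmb.restrict {f : M → M'} (hf : IsEmb I I' f) {U : Opens M} {U' : Opens M'}
    {f' : U → U'} (h : ∀ x, (f' x).1 = f x.1) :
    IsEmb I I' f' ∧ ∀ x, md I I' f' x = md I I' f x.1 := by
  have e : Subtype.val ∘ f' = f ∘ Subtype.val := funext h
  have hs : ContMDiff I I' ∞ (Subtype.val ∘ f') := e ▸ hf.1.comp contMDiff_subtype_val
  have hd : ∀ x, md I I' f' x = md I I' f x.1 := fun x => by
    rw [md_cod hs, e, md_dom hf.1]
  refine ⟨⟨contMDiff_cod hs, ?_, fun x => ?_⟩, hd⟩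
  · have : Topology.IsEmbedding (Subtype.val ∘ f') :=
      e ▸ hf.2.1.comp Topology.IsEmbedding.subtypeVal
    exact Topology.IsEmbedding.subtypeVal.of_comp_iff.1 this
  · have : Injective (md I I' f' x) := by rw [hd]; exact hf.2.2 x.1
    exact this

theorem IsEmb.restrictProd {f : M × M' → M''} (hf : IsEmb (I.prod I') I'' f) {U : Opens M}
    {U' : Opens M''} {f' : U × M' → U'} (h : ∀ z, (f' z).1 = f (z.1.1, z.2)) :
    IsEmb (I.prod I') I'' f' ∧
      ∀ z, md (I.prod I') I'' f' z = md (I.prod I') I'' f (z.1.1, z.2) := by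
  have e : Subtype.val ∘ f' = f ∘ Prod.map Subtype.val id := funext h
  have hs : ContMDiff (I.prod I') I'' ∞ (Subtype.val ∘ f') := e ▸ hf.1.comp (contMDiff_valProd U)
  have hd : ∀ z, md (I.prod I') I'' f' z = md (I.prod I') I'' f (z.1.1, z.2) := fun z => by
    rw [md_cod hs, e, md_domProd hf.1]
  refine ⟨⟨contMDiff_cod hs, ?_, fun z => ?_⟩, hd⟩
  · have : Topology.IsEmbedding (Subtype.val ∘ f') :=
      e ▸ hf.2.1.comp (Topology.IsEmbedding.subtypeVal.prodMap Topology.IsEmbedding.id)
    exact Topology.IsEmbedding.subtypeVal.of_comp_iff.1 this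
  · have : Injective (md (I.prod I') I'' f' z) := by rw [hd]; exact hf.2.2 _
    exact this

theorem isEmb_val (U : Opens M) : IsEmb I I (Subtype.val : U → M) := by
  refine ⟨contMDiff_subtype_val, Topology.IsEmbedding.subtypeVal, fun x => ?_⟩
  have : Injective (md I I (Subtype.val : U → M) x) := by rw [md_val]; exact injective_id
  exact this

/-- The inclusion of tangent bundles. -/
def tanIncl (I : ModelWithCorners ℝ E H) (U : Opens M) (p : TangentBundle I U) :
    TangentBundle I M := ⟨p.1.1, p.2⟩

theorem tanIncl_eq (U : Opens M) : tanIncl I U = tangentMap I I (Subtype.val : U → M) := by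
  funext p
  have h : (mfderiv I I (Subtype.val : U → M) p.1) p.2 = p.2 :=
    congrArg (fun L : E →L[ℝ] E => L p.2) (md_val U p.1)
  unfold tangentMap tanIncl
  rw [h]

theorem isInducing_tanIncl [IsManifold I ∞ M] (U : Opens M) :
    Topology.IsInducing (tanIncl I U) := by
  have hc : Continuous (tanIncl I U) := by
    rw [tanIncl_eq]
    exact (contMDiff_subtype_val (n := ∞)).continuous_tangentMap one_le_inf
  rcases isEmpty_or_nonempty U with hU | ⟨⟨x₀⟩⟩
  · have : IsEmpty (TangentBundle I U) := ⟨fun p => hU.false p.1⟩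
    exact Topology.IsInducing.of_subsingleton _
  classical
  let r : M → U := fun x => if h : x ∈ U then ⟨x, h⟩ else x₀
  have hr : ∀ x ∈ (U : Set M), (r x).1 = x := fun x hx => by
    have hx' : x ∈ U := hx
    simp only [r, dif_pos hx']
  have hrs : ContMDiffOn I I ∞ r U := fun x hx => by
    rw [← ContMDiffWithinAt.subtypeVal_comp_iff]
    exact contMDiffWithinAt_id.congr hr (hr x hx)
  have hcont := hrs.continuousOn_tangentMapWithin one_le_inf U.isOpen.uniqueMDiffOn
  have hleft : ∀ p, tangentMapWithin I I r U (tanIncl I U p) = p := by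
    rintro ⟨x, v⟩
    have e1 : r x.1 = x := Subtype.ext (hr x.1 x.2)
    have hat : ContMDiffAt I I ∞ r x.1 := (hrs x.1 x.2).contMDiffAt (U.isOpen.mem_nhds x.2)
    have e2 : mfderivWithin I I r U x.1 = mfderiv I I r x.1 :=
      mfderivWithin_of_isOpen U.isOpen x.2
    have e3 : (Subtype.val ∘ r) =ᶠ[𝓝 x.1] id := by
      filter_upwards [U.isOpen.mem_nhds x.2] with y hy using hr y hy
    have e4 : md I I (Subtype.val ∘ r) x.1 = ContinuousLinearMap.id ℝ E := by
      unfold md
      rw [e3.mfderiv_eq]
      exact mfderiv_id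
    have e5 : md I I (Subtype.val ∘ r) x.1 =
        (md I I (Subtype.val : U → M) (r x.1)).comp (md I I r x.1) :=
      mfderiv_comp x.1 ((contMDiff_subtype_val (n := ∞)).mdifferentiableAt inf_ne_zero)
        (hat.mdifferentiableAt inf_ne_zero)
    rw [md_val, e4] at e5
    have e6 : (mfderivWithin I I r U x.1) v = v := by
      rw [e2]
      exact (congrArg (fun L : E →L[ℝ] E => L v) e5).symm
    refine Bundle.TotalSpace.ext e1 ?_
    exact heq_of_eq e6
  have hcomp : Continuous fun p : range (tanIncl I U) => tangentMapWithin I I r U p.1 := by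
    refine hcont.comp_continuous continuous_subtype_val ?_
    rintro ⟨_, q, rfl⟩
    exact q.1.2
  have h1 : Topology.IsInducing (rangeFactorization (tanIncl I U)) := by
    refine Topology.IsInducing.of_comp (hc.subtype_mk _) hcomp ?_
    have : ((fun p : range (tanIncl I U) => tangentMapWithin I I r U p.1) ∘
      rangeFactorization (tanIncl I U)) = id := funext hleft
    rw [this]
    exact Topology.IsInducing.id
  exact Topology.IsInducing.subtypeVal.comp h1

theorem t2_tangentBundle [IsManifold I ∞ M] [T2Space M] : T2Space (TangentBundle I M) := by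
  refine ⟨fun p q hpq => ?_⟩
  by_cases h : p.1 = q.1
  · let t := trivializationAt E (TangentSpace I) p.1
    have hp : p ∈ t.source := by
      rw [t.mem_source]; exact FiberBundle.mem_baseSet_trivializationAt' p.1
    have hq : q ∈ t.source := by
      rw [t.mem_source, ← h]; exact FiberBundle.mem_baseSet_trivializationAt' p.1
    have hne : t p ≠ t q := fun e => hpq (t.toOpenPartialHomeomorph.injOn hp hq e)
    obtain ⟨u, v, hu, hv, hpu, hqv, huv⟩ := t2_separation hne
    refine ⟨t.source ∩ t ⁻¹' u, t.source ∩ t ⁻¹' v,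
      t.toOpenPartialHomeomorph.isOpen_inter_preimage hu,
      t.toOpenPartialHomeomorph.isOpen_inter_preimage hv, ⟨hp, hpu⟩, ⟨hq, hqv⟩, ?_⟩
    exact (huv.preimage t).mono inter_subset_right inter_subset_right
  · exact separated_by_continuous (FiberBundle.continuous_proj E (TangentSpace I)) h

end General

end

end Pool.Agent.P.MP_8db816_gt
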