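import Pool.Agent.P.MP_8db816_gt.Basic

/-! Disjoint unions of copies of a manifold, and pull-backs of coverings. -/

namespace Pool.Agent.P.MP_8db816_gt

open scoped Manifold ContDiff Topology
open Set Function TopologicalSpace Filter

noncomputable section

/-- Pull-back of a covering map. -/
theorem isCoveringMap_pull {E X Y : Type} [TopologicalSpace E] [TopologicalSpace X]
    [TopologicalSpace Y] {f : E → X} (hf : IsCoveringMap f) {π : Y → X} (hπ : Continuous π) :
    IsCoveringMap fun z : {z : Y × E // π z.1 = f z.2} => z.1.1 := fun y => by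
  obtain ⟨hd, U, hU, hUo, -, H, hH⟩ := hf (π y)
  refine IsEvenlyCovered.to_isEvenlyCovered_preimage (I := f ⁻¹' {π y})
    ⟨hd, π ⁻¹' U, hU, hUo.preimage hπ,
      (hUo.preimage hπ).preimage (continuous_fst.comp continuous_subtype_val), ?_⟩
  have hm : ∀ z : ((fun z : {z : Y × E // π z.1 = f z.2} => z.1.1) ⁻¹' (π ⁻¹' U)),
      z.1.1.2 ∈ f ⁻¹' U := fun z => by
    change f z.1.1.2 ∈ U
    rw [← z.1.2]
    exact z.2
  have hs : ∀ w : U × (f ⁻¹' {π y}), f (H.symm w).1 = w.1.1 := fun w => by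
    rw [← hH, H.apply_symm_apply]
  refine ⟨{ toFun := fun z => (⟨z.1.1.1, z.2⟩, (H ⟨z.1.1.2, hm z⟩).2)
            invFun := fun w => ⟨⟨(w.1.1, (H.symm (⟨π w.1.1, w.1.2⟩, w.2)).1), (hs (⟨π w.1.1, w.1.2⟩, w.2)).symm⟩,
              w.1.2⟩
            left_inv := fun z => ?_
            right_inv := fun w => ?_
            continuous_toFun := ?_
            continuous_invFun := ?_ }, fun _ => rfl⟩
  · refine Subtype.ext (Subtype.ext (Prod.ext rfl ?_))
    have : ((⟨π z.1.1.1, z.2⟩ : U), (H ⟨z.1.1.2, hm z⟩).2) = H ⟨z.1.1.2, hm z⟩ :=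
      Prod.ext (Subtype.ext (z.1.2.trans (hH ⟨z.1.1.2, hm z⟩).symm)) rfl
    change (H.symm ((⟨π z.1.1.1, z.2⟩ : U), (H ⟨z.1.1.2, hm z⟩).2)).1 = z.1.1.2
    rw [this, H.symm_apply_apply]
  · refine Prod.ext rfl ?_
    change (H (H.symm (⟨π w.1.1, w.1.2⟩, w.2))).2 = w.2
    rw [H.apply_symm_apply]
  · fun_prop
  · fun_prop

section General

variable {S E H M E' H' M' : Type} [NormedAddCommGroup E] [NormedSpace ℝ E]
  [TopologicalSpace H] [TopologicalSpace M] [ChartedSpace H M]
  [NormedAddCommGroup E'] [NormedSpace ℝ E'] [TopologicalSpace H'] [TopologicalSpace M']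
  [ChartedSpace H' M'] {I : ModelWithCorners ℝ E H} {I' : ModelWithCorners ℝ E' H'}

/-- Copies of `M` indexed by `S`. -/
abbrev Cp (S M : Type) : Type := Σ _ : S, M

/-- The inclusion of the copy with index `s`. -/
def cpMk (s : S) (x : M) : Cp S M := ⟨s, x⟩

theorem isOpenEmbedding_cpMk (s : S) : Topology.IsOpenEmbedding (cpMk s : M → Cp S M) :=
  Topology.IsOpenEmbedding.sigmaMk (σ := fun _ : S => M)

theorem continuous_cp_snd : Continuous fun z : Cp S M => z.2 :=
  continuous_sigma fun _ => continuous_id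

theorem cp_eventually (z : Cp S M) : ∀ᶠ w in 𝓝 z, w.1 = z.1 :=
  (isOpen_sigma_fst_preimage {z.1}).mem_nhds rfl

/-- A chart of the copy with index `s`. -/
def cpChart (s : S) (e : OpenPartialHomeomorph M H) : OpenPartialHomeomorph (Cp S M) H where
  toFun z := e z.2
  invFun y := ⟨s, e.symm y⟩
  source := Sigma.fst ⁻¹' {s} ∩ (fun z : Cp S M => z.2) ⁻¹' e.source
  target := e.target
  map_source' _ hz := e.map_source hz.2
  map_target' _ hy := ⟨rfl, e.map_target hy⟩
  left_inv' := by
    rintro ⟨t, x⟩ ⟨ht, hx⟩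
    obtain rfl : t = s := ht
    exact congrArg (Sigma.mk t) (e.left_inv hx)
  right_inv' _ hy := e.right_inv hy
  continuousOn_toFun := e.continuousOn.comp continuous_cp_snd.continuousOn fun _ hz => hz.2
  continuousOn_invFun := continuous_sigmaMk.comp_continuousOn e.continuousOn_symm
  open_source := (isOpen_sigma_fst_preimage {s}).inter (e.open_source.preimage continuous_cp_snd)
  open_target := e.open_target

instance cpCharted : ChartedSpace H (Cp S M) where
  atlas := {e | ∃ s, ∃ e' ∈ atlas H M, e = cpChart s e'}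
  chartAt z := cpChart z.1 (chartAt H z.2)
  mem_chart_source z := ⟨rfl, mem_chart_source H z.2⟩
  chart_mem_atlas z := ⟨z.1, _, chart_mem_atlas H z.2, rfl⟩

instance cpManifold [IsManifold I ∞ M] : IsManifold I ∞ (Cp S M) := by
  refine isManifold_of_contDiffOn I ∞ _ ?_
  rintro _ _ ⟨s, e, he, rfl⟩ ⟨t, e', he', rfl⟩
  have h := (StructureGroupoid.compatible (contDiffGroupoid ∞ I) he he').1
  refine ContDiffOn.mono h ?_
  rintro y ⟨⟨h1, h2⟩, h3⟩
  exact ⟨⟨h1, h2.2⟩, h3⟩

theorem cp_ext_apply (z w : Cp S M) : extChartAt I z w = extChartAt I z.2 w.2 := rfl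

theorem cp_ext_symm (z : Cp S M) (y : E) :
    (extChartAt I z).symm y = ⟨z.1, (extChartAt I z.2).symm y⟩ := rfl

theorem written_id (x : M) :
    (fun y => extChartAt I x ((extChartAt I x).symm y)) =ᶠ[𝓝[range I] (extChartAt I x x)] id := by
  filter_upwards [extChartAt_target_mem_nhdsWithin (I := I) x] with y hy
  exact (extChartAt I x).right_inv hy

theorem center_mem' (x : M) : extChartAt I x x ∈ range I :=
  extChartAt_target_subset_range x (mem_extChartAt_target x)

theorem contMDiff_cp_mk (s : S) : ContMDiff I I ∞ (cpMk s : M → Cp S M) := fun x =>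
  contMDiffAt_iff.2 ⟨(isOpenEmbedding_cpMk s).continuous.continuousAt,
    contDiffWithinAt_id.congr_of_eventuallyEq (written_id x)
      ((written_id x).eq_of_nhdsWithin (center_mem' x))⟩

theorem contMDiff_cp_snd : ContMDiff I I ∞ fun z : Cp S M => z.2 := fun z =>
  contMDiffAt_iff.2 ⟨continuous_cp_snd.continuousAt,
    contDiffWithinAt_id.congr_of_eventuallyEq (written_id z.2)
      ((written_id z.2).eq_of_nhdsWithin (center_mem' z.2))⟩

theorem md_cp_mk (s : S) (x : M) :
    md I I (cpMk s : M → Cp S M) x = ContinuousLinearMap.id ℝ E :=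
  HasMFDerivAt.mfderiv ⟨(isOpenEmbedding_cpMk s).continuous.continuousAt,
    (hasFDerivWithinAt_id _ _).congr_of_eventuallyEq (written_id x)
      ((written_id x).eq_of_nhdsWithin (center_mem' x))⟩

theorem md_cp_snd (z : Cp S M) :
    md I I (fun z : Cp S M => z.2) z = ContinuousLinearMap.id ℝ E :=
  HasMFDerivAt.mfderiv ⟨continuous_cp_snd.continuousAt,
    (hasFDerivWithinAt_id _ _).congr_of_eventuallyEq (written_id z.2)
      ((written_id z.2).eq_of_nhdsWithin (center_mem' z.2))⟩

theorem isEmb_cp_mk (s : S) : IsEmb I I (cpMk s : M → Cp S M) := by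
  refine ⟨contMDiff_cp_mk s, (isOpenEmbedding_cpMk s).isEmbedding, fun x => ?_⟩
  have : Injective (md I I (cpMk s : M → Cp S M) x) := by rw [md_cp_mk]; exact injective_id
  exact this

/-- The map of copies induced by maps of the index sets and of the manifolds. -/
def cpMap {S' : Type} (u : S → S') (f : M → M') (z : Cp S M) : Cp S' M' := ⟨u z.1, f z.2⟩

omit [TopologicalSpace M'] in
theorem cpMap_eventually {S' : Type} (u : S → S') (f : M → M') (z : Cp S M) :
    cpMap u f =ᶠ[𝓝 z] cpMk (u z.1) ∘ f ∘ fun w : Cp S M => w.2 := by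
  filter_upwards [cp_eventually z] with w hw
  change (⟨u w.1, f w.2⟩ : Cp S' M') = ⟨u z.1, f w.2⟩
  rw [hw]

theorem contMDiff_cpMap {S' : Type} (u : S → S') {f : M → M'} (hf : ContMDiff I I' ∞ f) :
    ContMDiff I I' ∞ (cpMap u f) := fun z =>
  (((contMDiff_cp_mk (u z.1)).comp (hf.comp contMDiff_cp_snd)) z).congr_of_eventuallyEq
    (cpMap_eventually u f z)

theorem md_cpMap {S' : Type} (u : S → S') {f : M → M'} (hf : ContMDiff I I' ∞ f) (z : Cp S M) :
    md I I' (cpMap u f) z = md I I' f z.2 := by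
  have h1 : md I I' (cpMap u f) z =
      md I I' (cpMk (u z.1) ∘ f ∘ fun w : Cp S M => w.2) z :=
    (cpMap_eventually u f z).mfderiv_eq
  rw [h1, md_comp (contMDiff_cp_mk _) (hf.comp contMDiff_cp_snd), md_comp hf contMDiff_cp_snd,
    md_cp_mk, md_cp_snd]
  rfl

theorem IsEmb.cpMap {f : M → M'} (hf : IsEmb I I' f) : IsEmb I I' (cpMap (id : S → S) f) := by
  refine ⟨contMDiff_cpMap id hf.1, ?_, fun z => ?_⟩
  · exact (Topology.isEmbedding_sigmaMap (σ := fun _ : S => M) (τ := fun _ : S => M')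
      (f₁ := (id : S → S)) (f₂ := fun _ => f) injective_id).2 fun _ => hf.2.1
  · have : Injective (md I I' (Pool.Agent.P.MP_8db816_gt.cpMap (id : S → S) f) z) := by
      rw [md_cpMap id hf.1]; exact hf.2.2 _
    exact this

theorem cp_boundary : I.boundary (Cp S M) = (fun z : Cp S M => z.2) ⁻¹' I.boundary M := rfl

end General

end

end Pool.Agent.P.MP_8db816_gt
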