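import Pool.Agent.P.MP_8db816_gt.Basic

/-! The part of a manifold on which a finite group acts trivially is open and closed. -/

namespace Pool.Agent.P.MP_8db816_gt

open scoped Manifold ContDiff Topology NNReal
open Set Function TopologicalSpace Filter

noncomputable section

section General

variable {E H M : Type} [NormedAddCommGroup E] [NormedSpace ℝ E]
  [TopologicalSpace H] [TopologicalSpace M] [ChartedSpace H M] {I : ModelWithCorners ℝ E H}

theorem lip_of_deriv_id {f : M → M} {x : M} (hf : ContMDiff I I ∞ f) (hx : f x = x)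
    (hd : md I I f x = ContinuousLinearMap.id ℝ E) :
    ∃ t ∈ 𝓝[range I] (extChartAt I x x), LipschitzOnWith (1 / 2 : ℝ≥0)
      (fun z => extChartAt I x (f ((extChartAt I x).symm z)) - z) t := by
  have hz : extChartAt I x x ∈ range I :=
    extChartAt_target_subset_range x (mem_extChartAt_target x)
  have h1 : ContDiffWithinAt ℝ ∞ (extChartAt I x ∘ f ∘ (extChartAt I x).symm) (range I)
      (extChartAt I x x) := by
    have := (contMDiffAt_iff.1 (hf x)).2
    rwa [hx] at this
  have h2 : fderivWithin ℝ (extChartAt I x ∘ f ∘ (extChartAt I x).symm) (range I)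
      (extChartAt I x x) = ContinuousLinearMap.id ℝ E := by
    have h3 := (hf.mdifferentiableAt (x := x) inf_ne_zero).mfderiv
    have h4 : writtenInExtChartAt I I x f = extChartAt I x ∘ f ∘ (extChartAt I x).symm := by
      unfold writtenInExtChartAt
      rw [hx]
    rw [h4] at h3
    exact h3.symm.trans hd
  have h5 : ContDiffWithinAt ℝ 1
      (fun z => extChartAt I x (f ((extChartAt I x).symm z)) - z) (range I)
      (extChartAt I x x) := (h1.of_le one_le_inf).sub contDiffWithinAt_id
  have h6 : fderivWithin ℝ (fun z => extChartAt I x (f ((extChartAt I x).symm z)) - z) (range I)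
      (extChartAt I x x) = 0 := by
    have h7 := ((h1.differentiableWithinAt inf_ne_zero).hasFDerivWithinAt.sub
      (hasFDerivWithinAt_id _ _)).fderivWithin (I.uniqueDiffOn _ hz)
    rw [h2, sub_self] at h7
    exact h7
  refine I.convex_range.exists_nhdsWithin_lipschitzOnWith_of_hasFDerivWithinAt_of_nnnorm_lt
    (𝕜 := ℝ) (f' := fderivWithin ℝ
      (fun z => extChartAt I x (f ((extChartAt I x).symm z)) - z) (range I)) ?_
    (h5.continuousWithinAt_fderivWithin I.uniqueDiffOn one_ne_zero hz) _ ?_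
  · have h8 := h5.eventually (by simp)
    rw [insert_eq_of_mem hz] at h8
    filter_upwards [h8] with y hy using
      (hy.differentiableWithinAt one_ne_zero).hasFDerivWithinAt
  · rw [h6]
    simp

theorem bochner {Γ : Type} [Group Γ] [Fintype Γ] [MulAction Γ M]
    (hs : ∀ g : Γ, ContMDiff I I ∞ fun y : M => g • y) {x : M} (hx : ∀ g : Γ, g • x = x)
    (hd : ∀ g : Γ, md I I (fun y : M => g • y) x = ContinuousLinearMap.id ℝ E) :
    ∀ᶠ y in 𝓝 x, ∀ g : Γ, g • y = y := by
  choose t ht hL using fun g : Γ => lip_of_deriv_id (hs g) (hx g) (hd g)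
  have hT : (⋂ g, t g) ∈ 𝓝[range I] (extChartAt I x x) := iInter_mem.2 ht
  have hG : {y | y ∈ (extChartAt I x).source ∧ extChartAt I x y ∈ ⋂ g, t g} ∈ 𝓝 x := by
    rw [← map_extChartAt_nhds] at hT
    exact inter_mem (extChartAt_source_mem_nhds x) hT
  have hG' : ∀ᶠ y in 𝓝 x, ∀ g : Γ,
      g • y ∈ (extChartAt I x).source ∧ extChartAt I x (g • y) ∈ ⋂ g, t g := by
    refine eventually_all.2 fun g => ?_
    have hc : Tendsto (fun y : M => g • y) (𝓝 x) (𝓝 x) := by
      have := (hs g).continuous.continuousAt (x := x)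
      rw [ContinuousAt, hx g] at this
      exact this
    exact hc.eventually hG
  filter_upwards [hG'] with y hy g
  have hy1 := hy 1
  rw [one_smul] at hy1
  set a := extChartAt I x y with ha
  set b := extChartAt I x (g • y) with hb
  have hsum : ∑ h : Γ, extChartAt I x (h • g • y) = ∑ h : Γ, extChartAt I x (h • y) := by
    simp only [← mul_smul]
    exact Fintype.sum_equiv (Equiv.mulRight g) _ _ fun _ => rfl
  have hterm : ∀ h : Γ, ‖(extChartAt I x (h • g • y) - b) - (extChartAt I x (h • y) - a)‖ ≤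
      1 / 2 * ‖b - a‖ := by
    intro h
    have := (hL h).dist_le_mul b (mem_iInter.1 (hy g).2 h) a (mem_iInter.1 hy1.2 h)
    rw [hb, ha, (extChartAt I x).left_inv (hy g).1, (extChartAt I x).left_inv hy1.1,
      dist_eq_norm, dist_eq_norm] at this
    have e : ((1 / 2 : ℝ≥0) : ℝ) = 1 / 2 := by norm_num
    rw [e] at this
    exact this
  have h1 : ∑ h : Γ, ((extChartAt I x (h • g • y) - b) - (extChartAt I x (h • y) - a)) =
      (Fintype.card Γ : ℝ) • (a - b) := by
    rw [Finset.sum_sub_distrib, Finset.sum_sub_distrib, Finset.sum_sub_distrib, hsum,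
      Finset.sum_const, Finset.sum_const, Finset.card_univ, smul_sub, Nat.cast_smul_eq_nsmul,
      Nat.cast_smul_eq_nsmul]
    abel
  have h2 := norm_sum_le_of_le Finset.univ fun h _ => hterm h
  rw [h1, norm_smul, Finset.sum_const, Finset.card_univ, nsmul_eq_mul, Real.norm_natCast,
    norm_sub_rev] at h2
  have hN : (0 : ℝ) < Fintype.card Γ := by exact_mod_cast Fintype.card_pos
  have h3 : ‖b - a‖ = 0 := by
    have := le_of_mul_le_mul_left h2 hN
    linarith [norm_nonneg (b - a)]
  exact (extChartAt I x).injOn (hy g).1 hy1.1 (sub_eq_zero.1 (norm_eq_zero.1 h3))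

end General

variable {Γ : Type} [Group Γ] {m n d : ℕ}

theorem diff_eq_md (A : GMfd Γ m) (C : GMfd Γ n) (φ : A.M → C.M) (x : A.M) :
    diff A C φ x = ⇑(md (model m) (model n) φ x) := rfl

/-- The part of `A` on which `Γ` acts trivially. -/
def core (A : GMfd Γ n) : Set A.M := interior {x | ∀ g : Γ, g • x = x}

theorem mem_core {A : GMfd Γ n} {x : A.M} : x ∈ core A ↔ ∀ᶠ y in 𝓝 x, ∀ g : Γ, g • y = y :=
  mem_interior_iff_mem_nhds

theorem core_fix {A : GMfd Γ n} {x : A.M} (hx : x ∈ core A) (g : Γ) : g • x = x :=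
  (mem_core.1 hx).self_of_nhds g

theorem core_diff {A : GMfd Γ n} {x : A.M} (hx : x ∈ core A) (g : Γ) :
    md (model n) (model n) (fun y : A.M => g • y) x = ContinuousLinearMap.id ℝ (Euc n) := by
  have h : (fun y : A.M => g • y) =ᶠ[𝓝 x] id := by
    filter_upwards [mem_core.1 hx] with y hy using hy g
  unfold md
  rw [h.mfderiv_eq]
  exact mfderiv_id

theorem mem_core_of [Finite Γ] {A : GMfd Γ n} {x : A.M} (hx : ∀ g : Γ, g • x = x)
    (hd : ∀ g : Γ,
      md (model n) (model n) (fun y : A.M => g • y) x = ContinuousLinearMap.id ℝ (Euc n)) :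
    x ∈ core A := by
  have := Fintype.ofFinite Γ
  exact mem_core.2 (bochner A.smooth hx hd)

theorem isClopen_core [Finite Γ] (A : GMfd Γ n) : IsClopen (core A) := by
  refine ⟨?_, isOpen_interior⟩
  have := t2_tangentBundle (I := model n) (M := A.M)
  have hop : IsOpen (⋃ g : Γ, {p : TangentBundle (model n) A.M |
      tangentMap (model n) (model n) (fun y : A.M => g • y) p ≠ p}) :=
    isOpen_iUnion fun g => isOpen_ne_fun ((A.smooth g).continuous_tangentMap one_le_inf)
      continuous_id
  have h2 := FiberBundle.isOpenMap_proj (Euc n) (TangentSpace (model n) : A.M → Type) _ hop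
  rw [← isOpen_compl_iff]
  convert h2 using 1
  ext x
  simp only [mem_compl_iff, mem_image, mem_iUnion, mem_ofPred_eq]
  constructor
  · intro hx
    by_contra hcon
    push Not at hcon
    apply hx
    have key : ∀ (g : Γ) (v : Euc n), tangentMap (model n) (model n) (fun y : A.M => g • y)
        ⟨x, v⟩ = ⟨x, v⟩ := fun g v => by
      by_contra hne
      exact hcon ⟨x, v⟩ ⟨g, hne⟩ rfl
    refine mem_core_of (fun g => congrArg (fun p => p.1) (key g 0)) fun g => ?_
    ext1 v
    exact congrArg (fun p : TangentBundle (model n) A.M => (p.2 : Euc n)) (key g v)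
  · rintro ⟨⟨y, v⟩, ⟨g, hg⟩, rfl⟩ hx
    apply hg
    refine Bundle.TotalSpace.ext (core_fix hx g) (heq_of_eq ?_)
    exact congrArg (fun L : Euc n →L[ℝ] Euc n => L v) (core_diff hx g)

theorem core_smul {A : GMfd Γ n} (g : Γ) {x : A.M} (hx : x ∈ core A) : g • x ∈ core A := by
  rwa [core_fix hx]

/-- An equivariant continuous injection pulls the core into the core. -/
theorem core_preimage {A : GMfd Γ m} {C : GMfd Γ n} {φ : A.M → C.M} (hc : Continuous φ)
    (hi : Injective φ) (he : ∀ (g : Γ) x, φ (g • x) = g • φ x) {x : A.M} (hx : φ x ∈ core C) :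
    x ∈ core A := by
  rw [mem_core] at hx ⊢
  filter_upwards [hc.continuousAt.eventually hx] with y hy g
  exact hi ((he g y).trans (hy g))

theorem core_open {A C : GMfd Γ n} {φ : A.M → C.M} (h : IsGEmb A C φ) (ho : IsOpen (range φ))
    {x : A.M} : φ x ∈ core C ↔ x ∈ core A := by
  refine ⟨core_preimage h.1.1.continuous h.1.2.1.injective h.2, fun hx => ?_⟩
  have hoe : Topology.IsOpenEmbedding φ := ⟨h.1.2.1, ho⟩
  rw [mem_core] at hx ⊢
  rw [← hoe.map_nhds_eq, eventually_map]
  filter_upwards [hx] with y hy g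
  rw [← h.2, hy g]

theorem core_spinRes [Finite Γ] {L : GMfd Γ d} {W : GMfd Γ (d + 1)} {σ : Spin L} {τ : Spin W}
    {j : L.M → W.M} {ε : ℝ} (hj : IsGEmb L W j) (h : SpinRes σ τ j ε) {x : L.M} :
    j x ∈ core W ↔ x ∈ core L := by
  refine ⟨core_preimage hj.1.1.continuous hj.1.2.1.injective hj.2, fun hx => ?_⟩
  obtain ⟨J, ν, -, -, hJ, -, hfr⟩ := h
  obtain ⟨p, hp⟩ := (σ.conn x).nonempty
  have hp : (σ.ξ p).pt = x := hp
  have hfix : ∀ g : Γ, g • j x = j x := fun g => by rw [← hj.2, core_fix hx]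
  refine mem_core_of hfix fun g => ?_
  have h1 := σ.lift g p
  have h2 := τ.lift g (J p)
  have hpt : (σ.ξ (g • p)).pt = x := by rw [h1.1, hp]; exact core_fix hx g
  have hvec : ∀ k, (σ.ξ (g • p)).vec k = (σ.ξ p).vec k := fun k => by
    rw [h1.2 k, hp, diff_eq_md, core_diff hx]
    rfl
  have hsame : ∀ k, (τ.ξ (J (g • p))).vec k = (τ.ξ (J p)).vec k := fun k => by
    refine Fin.cases ?_ (fun k => ?_) k
    · rw [(hfr _).2.1, (hfr _).2.1, hpt, hp]
    · rw [(hfr _).2.2 k, (hfr _).2.2 k, hpt, hp, hvec]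
  let T : (Euc (d + 1) × ℝ × ℝ) →ₗ[ℝ] (Euc (d + 1) × ℝ × ℝ) :=
    (md (model (d + 1)) (model (d + 1)) (fun y : W.M => g • y) (j x)).toLinearMap.prodMap
      LinearMap.id
  have hT : ∀ k, T ((τ.ξ (J p)).vec k) = (τ.ξ (J p)).vec k := fun k => by
    have h3 := h2.2 k
    rw [← hJ, hsame, (hfr p).1, hp] at h3
    exact h3.symm
  have hcard : Fintype.card (Fin (d + 1 + 2)) = Module.finrank ℝ (Euc (d + 1) × ℝ × ℝ) := by
    simp [Module.finrank_prod]
  have hTid : T = LinearMap.id := by
    refine (basisOfLinearIndependentOfCardEqFinrank (τ.ξ (J p)).indep hcard).ext fun k => ?_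
    rw [coe_basisOfLinearIndependentOfCardEqFinrank]
    exact hT k
  ext1 v
  exact congrArg Prod.fst (LinearMap.congr_fun hTid (v, 0))

end

end Pool.Agent.P.MP_8db816_gt
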