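import Mathlib

/-! Definitions for the Stolz group of a proper action and for `KO_0` of the real reduced group
C*-algebra. -/

namespace Pool.Agent.P.MP_8db816_gt

open scoped Manifold ContDiff Topology
open Set Function

noncomputable section

/-! ### Manifolds with boundary and proper cocompact actions -/

/-- `ℝⁿ`. As everywhere in Mathlib, it also serves as the tangent space at each point `x` of an
`n`-manifold (coordinates of the preferred chart at `x`). -/
abbrev Euc (n : ℕ) : Type := EuclideanSpace ℝ (Fin n)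

/-- The model space of `n`-manifolds with boundary: a point for `n = 0`, the half-space
`{x₀ ≥ 0}` for `n ≥ 1`. -/
def Half : ℕ → Type
  | 0 => Euc 0
  | n + 1 => EuclideanHalfSpace (n + 1)

instance instTopHalf : (n : ℕ) → TopologicalSpace (Half n)
  | 0 => inferInstanceAs (TopologicalSpace (Euc 0))
  | n + 1 => inferInstanceAs (TopologicalSpace (EuclideanHalfSpace (n + 1)))

/-- The model with corners of `n`-manifolds with boundary. -/
def model : (n : ℕ) → ModelWithCorners ℝ (Euc n) (Half n)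
  | 0 => 𝓡 0
  | n + 1 => 𝓡∂ (n + 1)

/-- A smooth `n`-manifold, possibly with boundary, with a smooth proper cocompact action of the
discrete group `Γ`. -/
structure GMfd (Γ : Type) [Group Γ] (n : ℕ) where
  M : Type
  [top : TopologicalSpace M]
  [t2 : T2Space M]
  [sc : SecondCountableTopology M]
  [charts : ChartedSpace (Half n) M]
  [mfd : IsManifold (model n) ∞ M]
  [act : MulAction Γ M]
  smooth : ∀ g : Γ, ContMDiff (model n) (model n) ∞ fun x : M => g • x
  proper : ProperlyDiscontinuousSMul Γ M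
  cocompact : ∃ K : Set M, IsCompact K ∧ ∀ x : M, ∃ g : Γ, g • x ∈ K

attribute [instance] GMfd.top GMfd.t2 GMfd.sc GMfd.charts GMfd.mfd GMfd.act

variable {Γ : Type} [Group Γ] {m n d : ℕ}

/-- The boundary. -/
def GMfd.bd (A : GMfd Γ n) : Set A.M := (model n).boundary A.M

/-- A smooth embedding: smooth, a homeomorphism onto its image, with injective differential. -/
def IsEmb {E H M E' H' M' : Type} [NormedAddCommGroup E] [NormedSpace ℝ E] [TopologicalSpace H]
    [TopologicalSpace M] [ChartedSpace H M] [NormedAddCommGroup E'] [NormedSpace ℝ E']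
    [TopologicalSpace H'] [TopologicalSpace M'] [ChartedSpace H' M']
    (I : ModelWithCorners ℝ E H) (I' : ModelWithCorners ℝ E' H') (φ : M → M') : Prop :=
  ContMDiff I I' ∞ φ ∧ Topology.IsEmbedding φ ∧ ∀ x, Injective (mfderiv I I' φ x)

/-- An equivariant smooth embedding. -/
def IsGEmb (A : GMfd Γ m) (C : GMfd Γ n) (φ : A.M → C.M) : Prop :=
  IsEmb (model m) (model n) φ ∧ ∀ (g : Γ) x, φ (g • x) = g • φ x

/-- The differential of `φ` at `x`, as a map of the model vector spaces. -/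
def dv {E H M E' H' M' : Type} [NormedAddCommGroup E] [NormedSpace ℝ E] [TopologicalSpace H]
    [TopologicalSpace M] [ChartedSpace H M] [NormedAddCommGroup E'] [NormedSpace ℝ E']
    [TopologicalSpace H'] [TopologicalSpace M'] [ChartedSpace H' M']
    (I : ModelWithCorners ℝ E H) (I' : ModelWithCorners ℝ E' H') (φ : M → M') (x : M) : E → E' :=
  mfderiv I I' φ x

/-- The differential of `φ : A → C` at `x`. -/
def diff (A : GMfd Γ m) (C : GMfd Γ n) (φ : A.M → C.M) (x : A.M) : Euc m → Euc n :=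
  dv (model m) (model n) φ x

/-! ### Invariant Riemannian metrics and scalar curvature -/

/-- The differential at `y` of the inverse of the chart at `x`. -/
def cvec {E H M : Type} [NormedAddCommGroup E] [NormedSpace ℝ E] [TopologicalSpace H]
    [TopologicalSpace M] [ChartedSpace H M] (I : ModelWithCorners ℝ E H) (x : M) (y : E) : E → E :=
  mfderivWithin 𝓘(ℝ, E) I (extChartAt I x).symm (range I) y

/-- The coefficients `g_ij(y)` of a field of bilinear forms in the chart at `x`. -/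
def coef (A : GMfd Γ n) (β : A.M → Euc n → Euc n → ℝ) (x : A.M) (i j : Fin n) (y : Euc n) : ℝ :=
  β ((extChartAt (model n) x).symm y) (cvec (model n) x y (EuclideanSpace.single i (1 : ℝ)))
    (cvec (model n) x y (EuclideanSpace.single j (1 : ℝ)))

/-- A smooth `Γ`-invariant Riemannian metric. -/
structure GMetric (A : GMfd Γ n) where
  β : A.M → Euc n → Euc n → ℝ
  lin : ∀ x w, IsLinearMap ℝ fun v => β x v w
  symm : ∀ x v w, β x v w = β x w v
  pos : ∀ x v, v ≠ 0 → 0 < β x v v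
  smooth : ∀ x i j, ContDiffWithinAt ℝ ∞ (coef A β x i j) (range (model n))
    (extChartAt (model n) x x)
  inv : ∀ (g : Γ) x v w,
    β (g • x) (diff A A (fun y => g • y) x v) (diff A A (fun y => g • y) x w) = β x v w

/-- The derivative `∂_k u`, taken within `s`. -/
def pd (s : Set (Euc n)) (k : Fin n) (u : Euc n → ℝ) (y : Euc n) : ℝ :=
  fderivWithin ℝ u s y (EuclideanSpace.single k (1 : ℝ))

/-- The inverse matrix `g^{ij}`. -/
def ginv (G : Fin n → Fin n → Euc n → ℝ) (i j : Fin n) (y : Euc n) : ℝ :=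
  (Matrix.of fun a b => G a b y)⁻¹ i j

/-- The Christoffel symbol `Γ^k_{ij}`. -/
def chr (s : Set (Euc n)) (G : Fin n → Fin n → Euc n → ℝ) (k i j : Fin n) (y : Euc n) : ℝ :=
  (1 / 2) * ∑ l, ginv G k l y * (pd s i (G j l) y + pd s j (G i l) y - pd s l (G i j) y)

/-- The Ricci tensor
`R_ij = ∂_k Γ^k_{ij} - ∂_j Γ^k_{ik} + Γ^k_{kl} Γ^l_{ij} - Γ^k_{jl} Γ^l_{ik}`. -/
def ric (s : Set (Euc n)) (G : Fin n → Fin n → Euc n → ℝ) (i j : Fin n) (y : Euc n) : ℝ :=
  ∑ k, (pd s k (chr s G k i j) y - pd s j (chr s G k i k) y +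
    ∑ l, (chr s G k k l y * chr s G l i j y - chr s G k j l y * chr s G l i k y))

/-- The scalar curvature `g^{ij} R_ij` of a metric given by its coefficients on `s ⊆ ℝⁿ`. -/
def scal (s : Set (Euc n)) (G : Fin n → Fin n → Euc n → ℝ) (y : Euc n) : ℝ :=
  ∑ i, ∑ j, ginv G i j y * ric s G i j y

/-- Positive scalar curvature. -/
def GMetric.PSC {A : GMfd Γ n} (h : GMetric A) : Prop :=
  ∀ x, 0 < scal (range (model n)) (coef A h.β x) (extChartAt (model n) x x)

/-- `φ` pulls `h'` back to `h`. -/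
def IsIsom {A : GMfd Γ m} {C : GMfd Γ n} (h : GMetric A) (h' : GMetric C) (φ : A.M → C.M) :
    Prop :=
  ∀ x v w, h'.β (φ x) (diff A C φ x v) (diff A C φ x w) = h.β x v w

/-- `H` is a product near the boundary part `k : N → V` and restricts to `h` there: `k` extends to
an embedding `c : N × [0,1] → V` with `c^* H = h + δ² dt²` (a collar of width `δ > 0`). -/
def IsCollar {N : GMfd Γ m} {V : GMfd Γ n} (h : GMetric N) (H : GMetric V) (k : N.M → V.M) :
    Prop :=
  ∃ (c : N.M × Icc (0 : ℝ) 1 → V.M) (δ : ℝ), 0 < δ ∧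
    IsEmb ((model m).prod (𝓡∂ 1)) (model n) c ∧ (∀ x, c (x, ⊥) = k x) ∧
    ∀ z (v w : Euc m × Euc 1),
      H.β (c z) (dv ((model m).prod (𝓡∂ 1)) (model n) c z v)
        (dv ((model m).prod (𝓡∂ 1)) (model n) c z w) =
      h.β z.1 v.1 w.1 + δ ^ 2 * (v.2 0 * w.2 0)

/-! ### Equivariant spin structures -/

/-- A frame of the stable tangent bundle `TM ⊕ ℝ²`. -/
structure Frame (A : GMfd Γ n) where
  pt : A.M
  vec : Fin (n + 2) → Euc n × ℝ × ℝ
  indep : LinearIndependent ℝ vec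

/-- Frames carry the topology of `(TM × ℝ²)^(n+2)`. -/
instance instTopFrame (A : GMfd Γ n) : TopologicalSpace (Frame A) :=
  TopologicalSpace.induced (fun e k =>
    ((⟨e.pt, (e.vec k).1⟩ : TangentBundle (model n) A.M), (e.vec k).2)) inferInstance

/-- `e'` is the image of the frame `e` under `dφ ⊕ id`. -/
def Pushes {A C : GMfd Γ n} (φ : A.M → C.M) (e : Frame A) (e' : Frame C) : Prop :=
  e'.pt = φ e.pt ∧ ∀ k, e'.vec k = (diff A C φ e.pt (e.vec k).1, (e.vec k).2)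

/-- The frame is a frame of `TM` followed by the standard basis of `ℝ²`. -/
def Frame.IsStd {A : GMfd Γ n} (e : Frame A) : Prop :=
  (∀ l : Fin n, (e.vec (Fin.castAdd 2 l)).2 = 0) ∧
    e.vec (Fin.natAdd n 0) = (0, 1, 0) ∧ e.vec (Fin.natAdd n 1) = (0, 0, 1)

/-- A `Γ`-equivariant spin structure: a covering `ξ : Tot → Fr(TM ⊕ ℝ²)` whose nonempty fibres have
two points and whose part over each `x : M` is connected (so the image of `ξ` is the oriented frame
bundle of an orientation, and `ξ` is the nontrivial double cover of each fibre `GL⁺(n+2)`), with a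
lift of the action of `Γ`. -/
structure Spin (A : GMfd Γ n) where
  Tot : Type
  [top : TopologicalSpace Tot]
  [act : MulAction Γ Tot]
  ξ : Tot → Frame A
  cover : IsCoveringMap ξ
  two : ∀ p, (ξ ⁻¹' {ξ p}).encard = 2
  conn : ∀ x, IsConnected {p | (ξ p).pt = x}
  cont : ∀ g : Γ, Continuous fun p : Tot => g • p
  lift : ∀ (g : Γ) p, Pushes (fun x => g • x) (ξ p) (ξ (g • p))

attribute [instance] Spin.top Spin.act

/-- The spin structure `σ` (for `ε = 1`), or its opposite (for `ε = -1`; reflect `ℝ²`), is the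
restriction of `τ` along the boundary embedding `j`, outward normal `ν` first. -/
def SpinRes {L : GMfd Γ d} {W : GMfd Γ (d + 1)} (σ : Spin L) (τ : Spin W) (j : L.M → W.M)
    (ε : ℝ) : Prop :=
  ∃ (J : σ.Tot → τ.Tot) (ν : L.M → Euc (d + 1)), Continuous J ∧ Injective J ∧
    (∀ (g : Γ) p, J (g • p) = g • J p) ∧ (∀ x, ν x 0 < 0) ∧
    ∀ p, (τ.ξ (J p)).pt = j (σ.ξ p).pt ∧ (τ.ξ (J p)).vec 0 = (ν (σ.ξ p).pt, 0) ∧
      ∀ k : Fin (d + 2), (τ.ξ (J p)).vec k.succ =
        (diff L W j (σ.ξ p).pt ((σ.ξ p).vec k).1, ((σ.ξ p).vec k).2.1, ε * ((σ.ξ p).vec k).2.2)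

/-! ### The Stolz group -/

/-- A triple `(L, f, h)`: `L` is a Riemannian spin `d`-manifold with boundary `i : N ≅ ∂L` and a
proper cocompact isometric spin action (so it is complete), `f : L → X` is equivariant and `h` is
an invariant psc metric on the boundary. -/
structure Cycle (Γ X : Type) [Group Γ] [TopologicalSpace X] [MulAction Γ X] (d : ℕ) where
  L : GMfd Γ d
  σ : Spin L
  γ : GMetric L
  f : L.M → X
  f_cont : Continuous f
  f_equiv : ∀ (g : Γ) x, f (g • x) = g • f x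
  N : GMfd Γ (d - 1)
  closed : N.bd = ∅
  i : N.M → L.M
  emb : IsGEmb N L i
  range_i : range i = L.bd
  h : GMetric N
  psc : h.PSC

variable {X : Type} [TopologicalSpace X] [MulAction Γ X]

/-- The identification (a), (b) of two triples: a psc bordism `(V, H)` between the boundaries,
a product near them, and a spin manifold `W` over `X` with `∂W = L₁ ∪ V ∪ (-L₂)`. The spin
structure and the map to `X` on `V` are those restricted from `W`. -/
def Bordant (c₁ c₂ : Cycle Γ X d) : Prop :=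
  ∃ (V : GMfd Γ d) (H : GMetric V) (k₁ : c₁.N.M → V.M) (k₂ : c₂.N.M → V.M)
    (W : GMfd Γ (d + 1)) (τ : Spin W) (E : W.M → X)
    (j₁ : c₁.L.M → W.M) (j : V.M → W.M) (j₂ : c₂.L.M → W.M),
    H.PSC ∧ IsGEmb c₁.N V k₁ ∧ IsGEmb c₂.N V k₂ ∧ Disjoint (range k₁) (range k₂) ∧
    range k₁ ∪ range k₂ = V.bd ∧ IsCollar c₁.h H k₁ ∧ IsCollar c₂.h H k₂ ∧
    IsGEmb c₁.L W j₁ ∧ IsGEmb V W j ∧ IsGEmb c₂.L W j₂ ∧
    range j₁ ∪ range j ∪ range j₂ = W.bd ∧ j₁ ∘ c₁.i = j ∘ k₁ ∧ j₂ ∘ c₂.i = j ∘ k₂ ∧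
    range j₁ ∩ range j ⊆ range (j ∘ k₁) ∧ range j₂ ∩ range j ⊆ range (j ∘ k₂) ∧
    Disjoint (range j₁) (range j₂) ∧ SpinRes c₁.σ τ j₁ 1 ∧ SpinRes c₂.σ τ j₂ (-1) ∧
    Continuous E ∧ (∀ (g : Γ) x, E (g • x) = g • E x) ∧ E ∘ j₁ = c₁.f ∧ E ∘ j₂ = c₂.f

/-- `a` identifies the triple `c₁` with an open part of the triple `c`. -/
def IsPart (c₁ c : Cycle Γ X d) (a : c₁.L.M → c.L.M) : Prop :=
  IsGEmb c₁.L c.L a ∧ IsOpen (range a) ∧ c.f ∘ a = c₁.f ∧
    (∃ b : c₁.N.M → c.N.M, IsGEmb c₁.N c.N b ∧ c.i ∘ b = a ∘ c₁.i ∧ IsIsom c₁.h c.h b) ∧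
    ∃ A : c₁.σ.Tot → c.σ.Tot, Continuous A ∧ Injective A ∧ (∀ (g : Γ) p, A (g • p) = g • A p) ∧
      ∀ p, Pushes a (c₁.σ.ξ p) (c.σ.ξ (A p))

/-- `c` is the disjoint union of `c₁` and `c₂`. -/
def IsSum (c c₁ c₂ : Cycle Γ X d) : Prop :=
  ∃ a₁ a₂, IsPart c₁ c a₁ ∧ IsPart c₂ c a₂ ∧ IsCompl (range a₁) (range a₂)

/-- A closed spin `8`-manifold (trivial group) with a scalar-flat metric, such as a Bott
manifold. -/
structure Factor where
  B : GMfd Unit 8
  closed : B.bd = ∅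
  σ : Spin B
  γ : GMetric B
  flat : ∀ x, scal (range (model 8)) (coef B γ.β x) (extChartAt (model 8) x x) = 0

/-- `Φ` is a diffeomorphism `A × B ≅ C`, equivariant for the action on the first factor. -/
def IsProdMap (A : GMfd Γ m) (B : GMfd Unit d) (C : GMfd Γ n) (Φ : A.M × B.M → C.M) : Prop :=
  IsEmb ((model m).prod (model d)) (model n) Φ ∧ Surjective Φ ∧
    ∀ (g : Γ) x b, Φ (g • x, b) = g • Φ (x, b)

/-- `τ` is the product of the spin structures `σ` and `ρ` along `Φ : L × B ≅ P`. -/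
def SpinProd {L : GMfd Γ d} {B : GMfd Unit 8} {P : GMfd Γ (d + 8)} (σ : Spin L) (ρ : Spin B)
    (τ : Spin P) (Φ : L.M × B.M → P.M) : Prop :=
  ∃ μ : σ.Tot × {q : ρ.Tot // (ρ.ξ q).IsStd} → τ.Tot, Continuous μ ∧
    (∀ q, Injective fun p => μ (p, q)) ∧ (∀ p, Injective fun q => μ (p, q)) ∧
    (∀ (g : Γ) p q, μ (g • p, q) = g • μ (p, q)) ∧
    ∀ p q, (τ.ξ (μ (p, q))).pt = Φ ((σ.ξ p).pt, (ρ.ξ q.1).pt) ∧
      (∀ k : Fin (d + 2), (τ.ξ (μ (p, q))).vec (Fin.castAdd 8 k) =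
        (dv ((model d).prod (model 8)) (model (d + 8)) Φ ((σ.ξ p).pt, (ρ.ξ q.1).pt)
          (((σ.ξ p).vec k).1, 0), ((σ.ξ p).vec k).2)) ∧
      ∀ l : Fin 8, (τ.ξ (μ (p, q))).vec (Fin.natAdd (d + 2) l) =
        (dv ((model d).prod (model 8)) (model (d + 8)) Φ ((σ.ξ p).pt, (ρ.ξ q.1).pt)
          (0, ((ρ.ξ q.1).vec (Fin.castAdd 2 l)).1), 0)

/-- `c'` is the product `c × 𝔅`, with `Γ` acting on the first factor, the product spin structure
and the product metric on the boundary. -/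
def IsProd (𝔅 : Factor) (c : Cycle Γ X d) (c' : Cycle Γ X (d + 8)) : Prop :=
  ∃ (Φ : c.L.M × 𝔅.B.M → c'.L.M) (Ψ : c.N.M × 𝔅.B.M → c'.N.M),
    IsProdMap c.L 𝔅.B c'.L Φ ∧ (∀ z, c'.f (Φ z) = c.f z.1) ∧ SpinProd c.σ 𝔅.σ c'.σ Φ ∧
    IsProdMap c.N 𝔅.B c'.N Ψ ∧ (∀ x b, c'.i (Ψ (x, b)) = Φ (c.i x, b)) ∧
    ∀ z (v w : Euc (d - 1) × Euc 8),
      c'.h.β (Ψ z) (dv ((model (d - 1)).prod (model 8)) (model (d + 8 - 1)) Ψ z v)
        (dv ((model (d - 1)).prod (model 8)) (model (d + 8 - 1)) Ψ z w) =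
      c.h.β z.1 v.1 w.1 + 𝔅.γ.β z.2 v.2 w.2

/-- The relations: bordism, additivity under disjoint union, and `[c × 𝔅] = [c]`. -/
def stolzRel (Γ X : Type) [Group Γ] [TopologicalSpace X] [MulAction Γ X] (𝔅 : Factor) (n : ℕ) :
    Set (FreeAbelianGroup (Σ k : ℕ, Cycle Γ X (n + 8 * k))) :=
  {r | ∃ k c₁ c₂, Bordant c₁ c₂ ∧ r = .of ⟨k, c₁⟩ - .of ⟨k, c₂⟩} ∪
  {r | ∃ k c c₁ c₂, IsSum c c₁ c₂ ∧ r = .of ⟨k, c⟩ - .of ⟨k, c₁⟩ - .of ⟨k, c₂⟩} ∪
  {r | ∃ k c c', IsProd 𝔅 c c' ∧ r = .of ⟨k + 1, c'⟩ - .of ⟨k, c⟩}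

/-- `R^spin_n(X)^Γ[𝔅⁻¹]`: the direct limit of `R_n → R_{n+8} → ⋯`, presented by the triples of
dimensions `n + 8k` and the relations `stolzRel`. -/
def Stolz (Γ X : Type) [Group Γ] [TopologicalSpace X] [MulAction Γ X] (𝔅 : Factor) (n : ℕ) :
    AddCommGrpCat :=
  AddCommGrpCat.of
    (FreeAbelianGroup (Σ k : ℕ, Cycle Γ X (n + 8 * k)) ⧸ AddSubgroup.closure (stolzRel Γ X 𝔅 n))

/-! ### `KO_0` of the real reduced group C*-algebra -/

/-- The norm closure of the real algebra generated by the bounded operators on `V` that belong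
to `S`. -/
def opAlg (V : Type) [NormedAddCommGroup V] [NormedSpace ℝ V] (S : Set (V → V)) : RingCat :=
  RingCat.of (Algebra.adjoin ℝ {T : V →L[ℝ] V | ⇑T ∈ S}).topologicalClosure

/-- `C*_r(Γ; ℝ)`: the norm closure of the algebra generated by the left translations on the real
Hilbert space `ℓ²(Γ)`. -/
def redAlg (Γ : Type) [Group Γ] : RingCat :=
  opAlg (lp (fun _ : Γ => ℝ) 2) {T | ∃ g : Γ, ∀ u x, T u x = u (g⁻¹ * x)}

/-- Idempotent matrices over `A`. -/
abbrev Idem (A : Type) [Ring A] : Type := Σ n : ℕ, {p : Matrix (Fin n) (Fin n) A // p * p = p}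

/-- The relations of `K_0`: `[uv] = [vu]` and `[p ⊕ q] = [p] + [q]`. -/
def kRel (A : Type) [Ring A] : Set (FreeAbelianGroup (Idem A)) :=
  {r | ∃ (p q : Idem A) (u : Matrix (Fin p.1) (Fin q.1) A) (v : Matrix (Fin q.1) (Fin p.1) A),
    u * v = p.2.1 ∧ v * u = q.2.1 ∧ r = .of p - .of q} ∪
  {r | ∃ (p q : Idem A) (s : {s : Matrix (Fin (p.1 + q.1)) (Fin (p.1 + q.1)) A // s * s = s}),
    s.1 = Matrix.reindex finSumFinEquiv finSumFinEquiv (Matrix.fromBlocks p.2.1 0 0 q.2.1) ∧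
      r = .of ⟨p.1 + q.1, s⟩ - .of p - .of q}

/-- `K_0` of a unital ring; for a unital real C*-algebra this is `KO_0`. -/
def K0 (A : Type) [Ring A] : AddCommGrpCat :=
  AddCommGrpCat.of (FreeAbelianGroup (Idem A) ⧸ AddSubgroup.closure (kRel A))

end

end Pool.Agent.P.MP_8db816_gt
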