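import Pool.Agent.P.MP_8db816_gt.Parts
import Pool.Agent.P.MP_8db816_gt.Copies

/-! The triple `S × c` for a finite `Γ`-set `S` and a triple `c` for the trivial group. -/

namespace Pool.Agent.P.MP_8db816_gt

open scoped Manifold ContDiff Topology
open Set Function TopologicalSpace Filter

noncomputable section

variable {Γ Λ : Type} [Group Γ] [Group Λ] {m n d : ℕ}

/-- The map of frames induced by a map whose differential is the identity in the charts. -/
def frMap (A : GMfd Γ n) (C : GMfd Λ n) (φ : A.M → C.M) (e : Frame A) : Frame C :=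
  ⟨φ e.pt, e.vec, e.indep⟩

theorem continuous_frMap (A : GMfd Γ n) (C : GMfd Λ n) {φ : A.M → C.M}
    (hφ : ContMDiff (model n) (model n) ∞ φ)
    (hd : ∀ x, md (model n) (model n) φ x = ContinuousLinearMap.id ℝ (Euc n)) :
    Continuous (frMap A C φ) := by
  refine (isInducing_frCoord C).continuous_iff.2 (continuous_pi fun k => ?_)
  have h1 : Continuous fun e : Frame A => frCoord A e k :=
    (continuous_apply k).comp (isInducing_frCoord A).continuous
  have h2 := ((hφ.continuous_tangentMap one_le_inf).comp (continuous_fst.comp h1)).prodMk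
    (continuous_snd.comp h1)
  refine h2.congr fun e => Prod.ext ?_ rfl
  refine Bundle.TotalSpace.ext rfl (heq_of_eq ?_)
  exact congrArg (fun L : Euc n →L[ℝ] Euc n => L (e.vec k).1) (hd e.pt)

theorem sub_smul' {U Y : Type} [Group U] [Subsingleton U] [MulAction U Y] (g : U) (y : Y) :
    g • y = y := by rw [Subsingleton.elim g 1, one_smul]

variable (Γ) [Finite Γ] (S : Type) [MulAction Γ S] [Finite S]

/-- The action permuting the copies. -/
@[reducible] def cpAct (M : Type) : MulAction Γ (Cp S M) where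
  smul g := cpMap (fun s => g • s) id
  one_smul z := congrArg (fun s => cpMk s z.2) (one_smul Γ z.1)
  mul_smul g h z := congrArg (fun s => cpMk s z.2) (mul_smul g h z.1)

/-- The manifold `S × A`. -/
@[reducible] def GMfd.ind (A : GMfd Unit n) : GMfd Γ n where
  M := Cp S A.M
  act := cpAct Γ S A.M
  smooth _ := contMDiff_cpMap _ contMDiff_id
  proper := @ProperlyDiscontinuousSMul.mk Γ (Cp S A.M) _ (cpAct Γ S A.M).toSMul
    fun _ _ => Set.toFinite _
  cocompact := by
    obtain ⟨K, hK, h⟩ := A.cocompact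
    refine ⟨⋃ s : S, cpMk s '' K,
      isCompact_iUnion fun s => hK.image (isOpenEmbedding_cpMk s).continuous, fun z => ⟨1, ?_⟩⟩
    obtain ⟨g, hg⟩ := h z.2
    rw [@sub_smul' Unit A.M _ _ A.act] at hg
    exact mem_iUnion.2 ⟨(1 : Γ) • z.1, z.2, hg, rfl⟩

variable {Γ}

theorem md_smul_ind (A : GMfd Unit n) (g : Γ) (z : (A.ind Γ S).M) :
    md (model n) (model n) (cpMap (fun s : S => g • s) (id : A.M → A.M)) z =
      ContinuousLinearMap.id ℝ (Euc n) :=
  (md_cpMap (fun s : S => g • s) contMDiff_id z).trans mfderiv_id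

theorem coef_ind (A : GMfd Unit n) (β : A.M → Euc n → Euc n → ℝ)
    (z : (A.ind Γ S).M) (i j : Fin n) :
    coef (A.ind Γ S) (fun y => β y.2) z i j =ᶠ[𝓝[range (model n)] (extChartAt (model n) z z)]
      coef A β z.2 i j := by
  filter_upwards [extChartAt_target_mem_nhdsWithin (I := model n) z.2] with y hy
  have hyr : y ∈ range (model n) := extChartAt_target_subset_range z.2 hy
  have e2 := mfderiv_comp_mfderivWithin y
    ((contMDiff_cp_mk (I := model n) (M := A.M) z.1).mdifferentiableAt inf_ne_zero)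
    (mdifferentiableWithinAt_extChartAt_symm hy) ((model n).uniqueMDiffOn y hyr)
  have e3 : ∀ v : Euc n, mfderivWithin 𝓘(ℝ, Euc n) (model n)
      (cpMk z.1 ∘ (extChartAt (model n) z.2).symm) (range (model n)) y v =
      mfderivWithin 𝓘(ℝ, Euc n) (model n) (extChartAt (model n) z.2).symm (range (model n)) y v :=
    fun v => by
      rw [e2]
      exact congrArg (fun L : Euc n →L[ℝ] Euc n => L (mfderivWithin 𝓘(ℝ, Euc n) (model n)
        (extChartAt (model n) z.2).symm (range (model n)) y v)) (md_cp_mk z.1 _)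
  exact congrArg₂ (fun v w : Euc n => β ((extChartAt (model n) z.2).symm y) v w) (e3 _) (e3 _)

variable (Γ)

/-- The metric on the copies. -/
def GMetric.ind {A : GMfd Unit n} (h : GMetric A) : GMetric (A.ind Γ S) where
  β z := h.β z.2
  lin z := h.lin z.2
  symm z := h.symm z.2
  pos z := h.pos z.2
  smooth z i j := (h.smooth z.2 i j).congr_of_eventuallyEq (coef_ind S A h.β z i j)
    ((coef_ind S A h.β z i j).eq_of_nhdsWithin (center_mem z))
  inv g z v w :=
    congrArg (fun L : Euc n →L[ℝ] Euc n => h.β z.2 (L v) (L w)) (md_smul_ind S A g z)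

theorem GMetric.PSC.ind {A : GMfd Unit n} {h : GMetric A} (hp : h.PSC) : (h.ind Γ S).PSC :=
  fun z => lt_of_lt_of_eq (hp z.2) (scal_congr (center_mem z) (coef_ind S A h.β z)).symm

/-- The total space of the spin structure on the copies. -/
abbrev Spin.indTot {A : GMfd Unit n} (σ : Spin A) : Type :=
  {z : Frame (A.ind Γ S) × σ.Tot // frMap (A.ind Γ S) A (fun y => y.2) z.1 = σ.ξ z.2}

/-- The action on the spin structure of the copies. -/
@[reducible] def Spin.indAct {A : GMfd Unit n} (σ : Spin A) : MulAction Γ (σ.indTot Γ S) where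
  smul g z := ⟨(frMap (A.ind Γ S) (A.ind Γ S) (cpMap (fun s : S => g • s) id) z.1.1, z.1.2), z.2⟩
  one_smul z :=
    Subtype.ext (Prod.ext (Frame.ext' ((cpAct Γ S A.M).one_smul z.1.1.pt) rfl) rfl)
  mul_smul g h z :=
    Subtype.ext (Prod.ext (Frame.ext' ((cpAct Γ S A.M).mul_smul g h z.1.1.pt) rfl) rfl)

/-- The inclusion of the spin structure of the copy with index `s`. -/
def Spin.indMk {A : GMfd Unit n} (σ : Spin A) (s : S) (p : σ.Tot) : σ.indTot Γ S :=
  ⟨(frMap A (A.ind Γ S) (cpMk s) (σ.ξ p), p), rfl⟩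

theorem Spin.continuous_indMk {A : GMfd Unit n} (σ : Spin A) (s : S) :
    Continuous (σ.indMk Γ S s) :=
  (((continuous_frMap A (A.ind Γ S) (contMDiff_cp_mk s) (md_cp_mk s)).comp
    σ.cover.continuous).prodMk continuous_id).subtype_mk _

theorem Spin.indMk_eq {A : GMfd Unit n} (σ : Spin A) (z : σ.indTot Γ S) :
    σ.indMk Γ S z.1.1.pt.1 z.1.2 = z := by
  refine Subtype.ext (Prod.ext ?_ rfl)
  change frMap A (A.ind Γ S) (cpMk z.1.1.pt.1) (σ.ξ z.1.2) = z.1.1
  rw [← z.2]
  rfl

/-- The spin structure on the copies. -/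
@[reducible] def Spin.ind {A : GMfd Unit n} (σ : Spin A) : Spin (A.ind Γ S) where
  Tot := σ.indTot Γ S
  act := σ.indAct Γ S
  ξ z := z.1.1
  cover := isCoveringMap_pull σ.cover
    (continuous_frMap (A.ind Γ S) A contMDiff_cp_snd md_cp_snd)
  two z := by
    have hi : Injective (σ.indMk Γ S z.1.1.pt.1) := fun p q h =>
      congrArg (fun w : σ.indTot Γ S => w.1.2) h
    rw [← σ.two z.1.2, ← hi.encard_image]
    congr 1
    ext w
    constructor
    · intro hw
      have hw : w.1.1 = z.1.1 := hw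
      refine ⟨w.1.2, ?_, ?_⟩
      · change σ.ξ w.1.2 = σ.ξ z.1.2
        rw [← w.2, ← z.2, hw]
      · rw [← hw]
        exact σ.indMk_eq Γ S w
    · rintro ⟨p, hp, rfl⟩
      have hp : σ.ξ p = σ.ξ z.1.2 := hp
      change frMap A (A.ind Γ S) (cpMk z.1.1.pt.1) (σ.ξ p) = z.1.1
      rw [hp]
      exact congrArg (fun w : σ.indTot Γ S => w.1.1) (σ.indMk_eq Γ S z)
  conn y := by
    have h := (σ.conn y.2).image _ (σ.continuous_indMk Γ S y.1).continuousOn
    convert h using 1
    ext w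
    constructor
    · intro hw
      have hw : w.1.1.pt = y := hw
      refine ⟨w.1.2, ?_, ?_⟩
      · change (σ.ξ w.1.2).pt = y.2
        rw [← w.2, ← hw]
        rfl
      · rw [← hw]
        exact σ.indMk_eq Γ S w
    · rintro ⟨p, hp, rfl⟩
      have hp : (σ.ξ p).pt = y.2 := hp
      change cpMk y.1 (σ.ξ p).pt = y
      rw [hp]
      rfl
  cont g := (((continuous_frMap (A.ind Γ S) (A.ind Γ S) ((A.ind Γ S).smooth g)
    (md_smul_ind S A g)).comp (continuous_fst.comp continuous_subtype_val)).prodMk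
      (continuous_snd.comp continuous_subtype_val)).subtype_mk _
  lift g z := ⟨rfl, fun k => (congrArg (fun L : Euc n →L[ℝ] Euc n =>
    (L (z.1.1.vec k).1, (z.1.1.vec k).2)) (md_smul_ind S A g z.1.1.pt)).symm⟩

/-- The triple `S × c`. -/
@[reducible] def Cycle.ind (c : Cycle Unit Unit d) : Cycle Γ Unit d where
  L := c.L.ind Γ S
  σ := c.σ.ind Γ S
  γ := c.γ.ind Γ S
  f _ := ()
  f_cont := continuous_const
  f_equiv _ _ := rfl
  N := c.N.ind Γ S
  closed := by
    have : (c.N.ind Γ S).bd = (fun z : Cp S c.N.M => z.2) ⁻¹' c.N.bd := cp_boundary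
    rw [this, c.closed, preimage_empty]
  i := cpMap id c.i
  emb := ⟨c.emb.1.cpMap, fun _ _ => rfl⟩
  range_i := by
    have : (c.L.ind Γ S).bd = (fun z : Cp S c.L.M => z.2) ⁻¹' c.L.bd := cp_boundary
    rw [this, ← c.range_i]
    ext z
    constructor
    · rintro ⟨w, rfl⟩
      exact ⟨w.2, rfl⟩
    · rintro ⟨x, hx⟩
      exact ⟨cpMk z.1 x, congrArg (cpMk z.1) hx⟩
  h := c.h.ind Γ S
  psc := c.psc.ind Γ S

variable {Γ} [Finite Λ]

theorem isGEmb_cpMk (A : GMfd Unit n) (φ : Λ →* Γ) {s : S} (hs : ∀ g, φ g • s = s) :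
    IsGEmb (A.res (1 : Λ →* Unit)) ((A.ind Γ S).res φ) (cpMk s) :=
  ⟨isEmb_cp_mk s, fun g x => (congrArg (cpMk s) (@sub_smul' Unit A.M _ _ A.act _ x)).trans
    (congrArg (fun t => cpMk t x) (hs g).symm)⟩

theorem isPart_cpMk (c : Cycle Unit Unit d) (φ : Λ →* Γ) {s : S} (hs : ∀ g, φ g • s = s) :
    IsPart (c.res (1 : Λ →* Unit)) ((c.ind Γ S).res φ) (cpMk s) := by
  refine ⟨isGEmb_cpMk S c.L φ hs, (isOpenEmbedding_cpMk s).isOpen_range, rfl,
    ⟨cpMk s, isGEmb_cpMk S c.N φ hs, rfl, fun x v w => ?_⟩, c.σ.indMk Γ S s,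
    c.σ.continuous_indMk Γ S s, fun p q h => congrArg (fun w : c.σ.indTot Γ S => w.1.2) h,
    fun g p => ?_, fun p => ⟨rfl, fun k => ?_⟩⟩
  · rw [diff_eq_md, md_cp_mk]
    rfl
  · exact (congrArg (c.σ.indMk Γ S s) (@sub_smul' Unit c.σ.Tot _ _ c.σ.act _ p)).trans
      (congrArg (fun t => c.σ.indMk Γ S t p) (hs g).symm)
  · rw [diff_eq_md, md_cp_mk]
    rfl

theorem core_ind (A : GMfd Unit n) (φ : Λ →* Γ) (z : Cp S A.M) :
    z ∈ core ((A.ind Γ S).res φ) ↔ ∀ g, φ g • z.1 = z.1 := by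
  constructor
  · intro hz g
    exact congrArg Sigma.fst (core_fix hz g)
  · intro hz
    rw [mem_core]
    filter_upwards [cp_eventually z] with w hw g
    change cpMk (φ g • w.1) w.2 = cpMk w.1 w.2
    rw [hw, hz]

/-- The part of `S × c` on which `Λ` acts trivially is `S^Λ × c`. -/
theorem cls_ind (𝔅 : Factor) {k : ℕ} (c : Cycle Unit Unit (n + 8 * k)) (φ : Λ →* Γ) :
    resR 𝔅 n (1 : Unit →* Λ) (projR 𝔅 n (resR 𝔅 n φ (Stolz.cls 𝔅 n k (c.ind Γ S)))) =
      Nat.card {s : S // ∀ g, φ g • s = s} • Stolz.cls 𝔅 n k c := by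
  have h : Stolz.cls 𝔅 n k ((c.ind Γ S).res φ).triv =
      Nat.card {s : S // ∀ g, φ g • s = s} • Stolz.cls 𝔅 n k (c.res (1 : Λ →* Unit)) :=
    cls_parts' 𝔅 (fun s x => ⟨cpMk s.1 x, (core_ind S c.L φ _).2 s.2⟩)
      (fun s => (isPart_cpMk S c φ s.2).cod (S := coreSub _) fun _ => (core_ind S c.L φ _).2 s.2)
      (fun s t x y h => Subtype.ext (congrArg (fun z => z.1.1) h))
      fun z => ⟨⟨z.1.1, (core_ind S c.L φ _).1 z.2⟩, z.1.2, rfl⟩
  rw [resR_cls, projR_cls, h, map_nsmul, resR_cls, cls_res_res]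

end

end Pool.Agent.P.MP_8db816_gt
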