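import Pool.Agent.P.MP_8db816_gt.Defs

/-! Generators of `K_0` of a commutative Artinian ring with enough idempotents. -/

namespace Pool.Agent.P.MP_8db816_gt

open Function Matrix

noncomputable section

section Ring

variable {A : Type} [Ring A]

/-- The class of an idempotent matrix. -/
def kc (p : Idem A) : K0 A := QuotientAddGroup.mk (FreeAbelianGroup.of p)

theorem kc_equiv (p q : Idem A) (u : Matrix (Fin p.1) (Fin q.1) A)
    (v : Matrix (Fin q.1) (Fin p.1) A) (h1 : u * v = p.2.1) (h2 : v * u = q.2.1) :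
    kc p = kc q := by
  have h : (QuotientAddGroup.mk (FreeAbelianGroup.of p - FreeAbelianGroup.of q) : K0 A) = 0 :=
    (QuotientAddGroup.eq_zero_iff _).2
      (AddSubgroup.subset_closure (Or.inl ⟨p, q, u, v, h1, h2, rfl⟩))
  rw [QuotientAddGroup.mk_sub, sub_eq_zero] at h
  exact h

theorem kc_orth {n : ℕ} {P Q R : Matrix (Fin n) (Fin n) A} (hP : P * P = P) (hQ : Q * Q = Q)
    (hR : R * R = R) (hPQ : P * Q = 0) (hQP : Q * P = 0) (h : R = P + Q) :
    kc ⟨n, R, hR⟩ = kc ⟨n, P, hP⟩ + kc ⟨n, Q, hQ⟩ := by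
  have hs : reindex finSumFinEquiv finSumFinEquiv (fromBlocks P 0 0 Q) *
      reindex finSumFinEquiv finSumFinEquiv (fromBlocks P 0 0 Q) =
      reindex finSumFinEquiv finSumFinEquiv (fromBlocks P 0 0 Q) := by
    simp [reindex_apply, submatrix_mul_equiv, fromBlocks_multiply, hP, hQ]
  have h1 : kc ⟨n, R, hR⟩ = kc ⟨n + n, _, hs⟩ := by
    refine kc_equiv ⟨n, R, hR⟩ ⟨n + n, _, hs⟩ ((fromCols P Q).submatrix id finSumFinEquiv.symm)
      ((fromRows P Q).submatrix finSumFinEquiv.symm id) ?_ ?_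
    · change _ = R
      rw [submatrix_mul_equiv, fromCols_mul_fromRows, hP, hQ, submatrix_id_id]
      exact h.symm
    · change _ = reindex finSumFinEquiv finSumFinEquiv (fromBlocks P 0 0 Q)
      rw [← submatrix_mul _ _ _ _ _ bijective_id, fromRows_mul_fromCols, hP, hQ, hPQ, hQP]
      rfl
  have h2 : (QuotientAddGroup.mk (FreeAbelianGroup.of (⟨n + n, _, hs⟩ : Idem A) -
      FreeAbelianGroup.of ⟨n, P, hP⟩ - FreeAbelianGroup.of ⟨n, Q, hQ⟩) : K0 A) = 0 :=
    (QuotientAddGroup.eq_zero_iff _).2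
      (AddSubgroup.subset_closure (Or.inr ⟨⟨n, P, hP⟩, ⟨n, Q, hQ⟩, ⟨_, hs⟩, rfl, rfl⟩))
  rw [QuotientAddGroup.mk_sub, QuotientAddGroup.mk_sub, sub_sub, sub_eq_zero] at h2
  exact h1.trans h2

theorem kc_zero (n : ℕ) : kc (⟨n, 0, Matrix.zero_mul 0⟩ : Idem A) = 0 :=
  left_eq_add.1 (kc_orth (Matrix.zero_mul 0) (Matrix.zero_mul 0) (Matrix.zero_mul 0)
    (Matrix.zero_mul 0) (Matrix.zero_mul 0) (add_zero 0).symm)

/-- The class of an idempotent element. -/
def kc1 (e : A) (he : e * e = e) : K0 A :=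
  kc ⟨1, Matrix.of fun _ _ => e, by ext; simp [Matrix.mul_apply, he]⟩

end Ring

theorem kc_mem_span {A ι : Type} [CommRing A] [IsArtinianRing A] (e : ι → A)
    (he : ∀ l, e l * e l = e l) (H : ∀ a : A, a ≠ 0 → ∃ l b, b * a = e l ∧ e l ≠ 0) (n : ℕ)
    (P : Matrix (Fin n) (Fin n) A) (hP : P * P = P) :
    kc ⟨n, P, hP⟩ ∈ Submodule.span ℤ (Set.range fun l => kc1 (e l) (he l)) := by
  induction hV : LinearMap.range P.mulVecLin using WellFoundedLT.induction generalizing P with
  | ind V ih =>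
  by_cases h0 : P = 0
  · subst h0
    rw [kc_zero]
    exact Submodule.zero_mem _
  obtain ⟨i, j, hij⟩ : ∃ i j, P i j ≠ 0 := by
    by_contra hcon
    push Not at hcon
    exact h0 (Matrix.ext hcon)
  obtain ⟨l, b, hb, hl⟩ := H _ hij
  let c : Matrix (Fin n) (Fin 1) A := Matrix.of fun k _ => P k j * (b * e l)
  let w : Matrix (Fin 1) (Fin n) A := Matrix.of fun _ k => P i k
  have hPc : P * c = c := by
    ext k z
    have := congrFun (congrFun hP k) j
    simp only [c, Matrix.mul_apply, of_apply] at this ⊢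
    rw [← this, Finset.sum_mul]
    exact Finset.sum_congr rfl fun x _ => by ring
  have hwP : w * P = w := by
    ext z k
    exact congrFun (congrFun hP i) k
  have hwc : w * c = Matrix.of fun _ _ => e l := by
    ext z z'
    have h1 : (w * c) z z' = (P * c) i z' := rfl
    rw [h1, hPc]
    change P i j * (b * e l) = e l
    rw [← mul_assoc, mul_comm (P i j), hb, he]
  have hcw : c * (w * c) = c := by
    rw [hwc]
    ext k z
    simp only [c, Matrix.mul_apply, of_apply, Finset.univ_unique, Finset.sum_singleton]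
    rw [mul_assoc, mul_assoc, he]
  have hQ : c * w * (c * w) = c * w := by
    rw [← Matrix.mul_assoc, Matrix.mul_assoc c w c, hcw]
  have hPQ : P * (c * w) = c * w := by rw [← Matrix.mul_assoc, hPc]
  have hQP : c * w * P = c * w := by rw [Matrix.mul_assoc, hwP]
  have hR : (P - c * w) * (P - c * w) = P - c * w := by
    rw [Matrix.sub_mul, Matrix.mul_sub, Matrix.mul_sub, hP, hPQ, hQP, hQ, sub_self, sub_zero]
  have hRc : (P - c * w) * c = 0 := by
    rw [Matrix.sub_mul, hPc, Matrix.mul_assoc, hcw, sub_self]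
  have h1 := kc_orth hQ hR hP (by rw [Matrix.mul_sub, hQP, hQ, sub_self])
    (by rw [Matrix.sub_mul, hPQ, hQ, sub_self]) (add_sub_cancel _ _).symm
  have h2 : kc ⟨n, c * w, hQ⟩ = kc1 (e l) (he l) := kc_equiv _ _ c w rfl hwc
  rw [h1, h2]
  refine Submodule.add_mem _ (Submodule.subset_span ⟨l, rfl⟩) (ih _ ?_ _ hR rfl)
  rw [← hV]
  refine lt_of_le_of_ne ?_ fun heq => hl ?_
  · rintro _ ⟨v, rfl⟩
    refine ⟨(P - c * w) *ᵥ v, ?_⟩
    simp only [mulVecLin_apply, mulVec_mulVec]
    rw [Matrix.mul_sub, hP, hPQ]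
  · have hcol : ∀ M : Matrix (Fin n) (Fin n) A, M *ᵥ (fun k => c k 0) = fun k => (M * c) k 0 :=
      fun _ => rfl
    have hm : (fun k => c k 0) ∈ LinearMap.range P.mulVecLin :=
      ⟨fun k => c k 0, by rw [mulVecLin_apply, hcol, hPc]⟩
    rw [← heq] at hm
    obtain ⟨v, hv⟩ := hm
    rw [mulVecLin_apply] at hv
    have h3 : (P - c * w) *ᵥ (fun k => c k 0) = fun k => c k 0 := by
      rw [← hv, mulVec_mulVec, hR]
    rw [hcol, hRc] at h3
    have hc0 : c = 0 := by
      ext k z
      rw [Subsingleton.elim z 0]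
      exact (congrFun h3 k).symm
    have h4 := congrFun (congrFun hwc 0) 0
    rw [hc0, Matrix.mul_zero] at h4
    exact h4.symm

theorem not_indep_of_gen {A : Type} [CommRing A] [IsArtinianRing A] {m : ℕ} (e : Fin m → A)
    (he : ∀ l, e l * e l = e l) (H : ∀ a : A, a ≠ 0 → ∃ l b, b * a = e l ∧ e l ≠ 0)
    (v : Fin (m + 1) → K0 A) : ¬ LinearIndependent ℤ v := by
  intro hv
  have htop : ∀ x : K0 A, x ∈ Submodule.span ℤ (Set.range fun l => kc1 (e l) (he l)) := fun x => by
    obtain ⟨y, rfl⟩ := QuotientAddGroup.mk_surjective x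
    induction y using FreeAbelianGroup.induction_on with
    | zero => exact Submodule.zero_mem _
    | of p => exact kc_mem_span e he H p.1 p.2.1 p.2.2
    | neg p hp => exact Submodule.neg_mem _ hp
    | add y z hy hz => exact Submodule.add_mem _ hy hz
  classical
  have h1 := linearIndependent_le_span_aux' v hv (Set.range fun l => kc1 (e l) (he l))
    fun x _ => htop x
  have h2 := Fintype.card_range_le fun l => kc1 (e l) (he l)
  simp only [Fintype.card_fin] at h1 h2
  omega

end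

end Pool.Agent.P.MP_8db816_gt
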