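import Pool.Agent.P.MP_8db816_gt.KGen

/-! `KO_0` of the two real group algebras used in the disproof. -/

namespace Pool.Agent.P.MP_8db816_gt

open Function

noncomputable section

section Algebra

variable {A : Type} [CommRing A] [Algebra ℝ A]

/-- If `a e` always has the form `(α + β s) e` with `(1 + s + s²) e = 0`, then `e A` is a field. -/
theorem inv_part {e s a : A} (hs : (1 + s + s ^ 2) * e = 0) (α β : ℝ)
    (h : a * e = (algebraMap ℝ A α + algebraMap ℝ A β * s) * e) (ha : a * e ≠ 0) :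
    ∃ b, b * a = e := by
  have hN : α ^ 2 - α * β + β ^ 2 ≠ 0 := by
    intro h0
    have h1 : α = 0 := by nlinarith [sq_nonneg (α - 2 * β), sq_nonneg α]
    have h2 : β = 0 := by nlinarith [sq_nonneg β]
    apply ha
    rw [h, h1, h2]
    simp
  have hc : algebraMap ℝ A (α ^ 2 - α * β + β ^ 2)⁻¹ *
      (algebraMap ℝ A α ^ 2 - algebraMap ℝ A α * algebraMap ℝ A β + algebraMap ℝ A β ^ 2) = 1 := by
    rw [← map_pow, ← map_pow, ← map_mul, ← map_sub, ← map_add, ← map_mul, inv_mul_cancel₀ hN,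
      map_one]
  refine ⟨algebraMap ℝ A (α ^ 2 - α * β + β ^ 2)⁻¹ *
    (algebraMap ℝ A α - algebraMap ℝ A β - algebraMap ℝ A β * s) * e, ?_⟩
  set c := algebraMap ℝ A (α ^ 2 - α * β + β ^ 2)⁻¹
  set x := algebraMap ℝ A α
  set y := algebraMap ℝ A β
  linear_combination (c * (x - y - y * s)) * h + e * hc - c * y ^ 2 * hs

/-- On the span of elements acting on `e` as powers of `s`. -/
theorem form_of_span {G : Type} (lam : G → A) {e s : A} (hs : (1 + s + s ^ 2) * e = 0)
    (hl : ∀ g, lam g * e = e ∨ lam g * e = s * e ∨ lam g * e = s ^ 2 * e) {a : A}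
    (ha : a ∈ Submodule.span ℝ (Set.range lam)) :
    ∃ α β : ℝ, a * e = (algebraMap ℝ A α + algebraMap ℝ A β * s) * e := by
  induction ha using Submodule.span_induction with
  | mem x hx =>
    obtain ⟨g, rfl⟩ := hx
    rcases hl g with h | h | h
    · exact ⟨1, 0, by simp [h]⟩
    · exact ⟨0, 1, by simp [h]⟩
    · refine ⟨-1, -1, ?_⟩
      simp only [map_neg, map_one]
      linear_combination h + hs
  | zero => exact ⟨0, 0, by simp⟩
  | add x y _ _ hx hy =>
    obtain ⟨α, β, hx⟩ := hx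
    obtain ⟨γ, δ, hy⟩ := hy
    refine ⟨α + γ, β + δ, ?_⟩
    simp only [map_add]
    linear_combination hx + hy
  | smul r x _ hx =>
    obtain ⟨α, β, hx⟩ := hx
    refine ⟨r * α, r * β, ?_⟩
    simp only [map_mul, Algebra.smul_def]
    linear_combination algebraMap ℝ A r * hx

theorem form_of_span₀ {G : Type} (lam : G → A) {e : A} (hl : ∀ g, lam g * e = e) {a : A}
    (ha : a ∈ Submodule.span ℝ (Set.range lam)) : ∃ α : ℝ, a * e = algebraMap ℝ A α * e := by
  induction ha using Submodule.span_induction with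
  | mem x hx =>
    obtain ⟨g, rfl⟩ := hx
    exact ⟨1, by simp [hl g]⟩
  | zero => exact ⟨0, by simp⟩
  | add x y _ _ hx hy =>
    obtain ⟨α, hx⟩ := hx
    obtain ⟨γ, hy⟩ := hy
    refine ⟨α + γ, ?_⟩
    simp only [map_add]
    linear_combination hx + hy
  | smul r x _ hx =>
    obtain ⟨α, hx⟩ := hx
    refine ⟨r * α, ?_⟩
    simp only [map_mul, Algebra.smul_def]
    linear_combination algebraMap ℝ A r * hx

/-- The idempotent attached to `t`, cut down by the complement of the one attached to `s`. -/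
theorem field_part {G : Type} (lam : G → A) (hsp : ∀ a, a ∈ Submodule.span ℝ (Set.range lam))
    {c t s : A} (hc : 3 * c = 1) (ht : t ^ 3 = 1) (hs : s ^ 3 = 1)
    (hl : ∀ g, ∃ i j : ℕ, lam g = t ^ i * s ^ j) :
    let e := c * (1 + t + t ^ 2) * (1 - c * (1 + s + s ^ 2))
    e * e = e ∧ ∀ a, a * e ≠ 0 → ∃ b, b * a = e := by
  intro e
  have hpt : t * (c * (1 + t + t ^ 2)) = c * (1 + t + t ^ 2) := by linear_combination c * ht
  have hps : s * (c * (1 + s + s ^ 2)) = c * (1 + s + s ^ 2) := by linear_combination c * hs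
  have ipt : (c * (1 + t + t ^ 2)) * (c * (1 + t + t ^ 2)) = c * (1 + t + t ^ 2) := by
    linear_combination c * (2 + t) * hpt + c * (1 + t + t ^ 2) * hc
  have ips : (c * (1 + s + s ^ 2)) * (c * (1 + s + s ^ 2)) = c * (1 + s + s ^ 2) := by
    linear_combination c * (2 + s) * hps + c * (1 + s + s ^ 2) * hc
  have he : e * e = e := by
    simp only [e]
    linear_combination (1 - c * (1 + s + s ^ 2)) ^ 2 * ipt + c * (1 + t + t ^ 2) * ips
  have hte : t * e = e := by
    simp only [e]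
    linear_combination (1 - c * (1 + s + s ^ 2)) * hpt
  have hse : (1 + s + s ^ 2) * e = 0 := by
    simp only [e]
    linear_combination (-(c * (1 + t + t ^ 2)) * (2 + s)) * hps -
      c * (1 + t + t ^ 2) * (1 + s + s ^ 2) * hc
  have htp : ∀ i : ℕ, t ^ i * e = e := fun i => by
    induction i with
    | zero => simp
    | succ i ih => rw [pow_succ, mul_assoc, hte, ih]
  have hsp' : ∀ j : ℕ, s ^ j = 1 ∨ s ^ j = s ∨ s ^ j = s ^ 2 := fun j => by
    induction j with
    | zero => simp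
    | succ j ih =>
      rcases ih with h | h | h
      · exact Or.inr (Or.inl (by rw [pow_succ, h, one_mul]))
      · exact Or.inr (Or.inr (by rw [pow_succ, h, sq]))
      · exact Or.inl (by rw [pow_succ, h, ← pow_succ, hs])
  refine ⟨he, fun a ha => ?_⟩
  obtain ⟨α, β, h⟩ := form_of_span lam hse (fun g => by
    obtain ⟨i, j, hg⟩ := hl g
    have h1 : lam g * e = s ^ j * e := by rw [hg, mul_comm (t ^ i), mul_assoc, htp]
    rcases hsp' j with h | h | h
    · exact Or.inl (by rw [h1, h, one_mul])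
    · exact Or.inr (Or.inl (by rw [h1, h]))
    · exact Or.inr (Or.inr (by rw [h1, h]))) (hsp a)
  exact inv_part hse α β h ha

theorem five_idem {G : Type} (lam : G → A) (hsp : ∀ a, a ∈ Submodule.span ℝ (Set.range lam))
    {x y : A} (hx : x ^ 3 = 1) (hy : y ^ 3 = 1) (hl : ∀ g, ∃ i j : ℕ, lam g = x ^ i * y ^ j) :
    ∃ e : Fin 5 → A, (∀ l, e l * e l = e l) ∧ ∀ a : A, a ≠ 0 → ∃ l b, b * a = e l ∧ e l ≠ 0 := by
  obtain ⟨c, hc⟩ : ∃ c : A, 3 * c = 1 := ⟨algebraMap ℝ A 3⁻¹, by
    rw [← map_ofNat (algebraMap ℝ A) 3, ← map_mul, mul_inv_cancel₀ (by norm_num), map_one]⟩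
  have hxy : (x * y) ^ 3 = 1 := by rw [mul_pow, hx, hy, one_mul]
  have hxy2 : (x * y ^ 2) ^ 3 = 1 := by rw [mul_pow, hx, ← pow_mul, mul_comm 2 3, pow_mul, hy]; simp
  have hx3 : ∀ k : ℕ, x ^ (3 * k) = 1 := fun k => by rw [pow_mul, hx, one_pow]
  have hy3 : ∀ k : ℕ, y ^ (3 * k) = 1 := fun k => by rw [pow_mul, hy, one_pow]
  obtain ⟨i1, f1⟩ := field_part lam hsp hc hx hy hl
  obtain ⟨i2, f2⟩ := field_part lam hsp hc hy hx fun g => by
    obtain ⟨i, j, h⟩ := hl g
    exact ⟨j, i, by rw [h, mul_comm]⟩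
  obtain ⟨i3, f3⟩ := field_part lam hsp hc hxy hx fun g => by
    obtain ⟨i, j, h⟩ := hl g
    exact ⟨j, i + 2 * j, by linear_combination h - x ^ i * y ^ j * hx3 j⟩
  obtain ⟨i4, f4⟩ := field_part lam hsp hc hxy2 hx fun g => by
    obtain ⟨i, j, h⟩ := hl g
    exact ⟨2 * j, i + j, by
      linear_combination h - x ^ i * y ^ (4 * j) * hx3 j - x ^ i * y ^ j * hy3 j⟩
  have hpx : x * (c * (1 + x + x ^ 2)) = c * (1 + x + x ^ 2) := by linear_combination c * hx
  have hpy : y * (c * (1 + y + y ^ 2)) = c * (1 + y + y ^ 2) := by linear_combination c * hy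
  set e₀ := c * (1 + x + x ^ 2) * (c * (1 + y + y ^ 2)) with he₀
  have hx0 : ∀ i : ℕ, x ^ i * e₀ = e₀ := fun i => by
    induction i with
    | zero => simp
    | succ i ih => rw [pow_succ, mul_assoc, he₀, ← mul_assoc x, hpx, ← he₀, ih]
  have hy0 : ∀ i : ℕ, y ^ i * e₀ = e₀ := fun i => by
    induction i with
    | zero => simp
    | succ i ih =>
      have : y * e₀ = e₀ := by rw [he₀]; linear_combination c * (1 + x + x ^ 2) * hpy
      rw [pow_succ, mul_assoc, this, ih]
  have i0 : e₀ * e₀ = e₀ := by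
    have h1 : c * (1 + x + x ^ 2) * e₀ = e₀ := by
      linear_combination c * hx0 1 + c * hx0 2 + e₀ * hc
    have h2 : c * (1 + y + y ^ 2) * e₀ = e₀ := by
      linear_combination c * hy0 1 + c * hy0 2 + e₀ * hc
    linear_combination c * (1 + x + x ^ 2) * h2 + h1 + e₀ * he₀
  have f0 : ∀ a, a * e₀ ≠ 0 → ∃ b, b * a = e₀ := fun a ha => by
    obtain ⟨α, h⟩ := form_of_span₀ lam (e := e₀) (fun g => by
      obtain ⟨i, j, hg⟩ := hl g
      rw [hg, mul_assoc, hy0, hx0]) (hsp a)
    have hα : α ≠ 0 := by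
      rintro rfl
      exact ha (by simpa using h)
    have h1 : algebraMap ℝ A α⁻¹ * algebraMap ℝ A α = 1 := by
      rw [← map_mul, inv_mul_cancel₀ hα, map_one]
    exact ⟨algebraMap ℝ A α⁻¹ * e₀, by linear_combination algebraMap ℝ A α⁻¹ * h + e₀ * h1⟩
  have s3 : c * (1 + x * y + (x * y) ^ 2) * (c * (1 + x + x ^ 2)) = e₀ := by
    rw [he₀]
    linear_combination c * (y + y ^ 2 * (1 + x)) * hpx
  have s4 : c * (1 + x * y ^ 2 + (x * y ^ 2) ^ 2) * (c * (1 + x + x ^ 2)) = e₀ := by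
    rw [he₀]
    linear_combination c * (y ^ 2 + y ^ 4 * (1 + x)) * hpx + c * y * (c * (1 + x + x ^ 2)) * hy
  have hsum : e₀ + c * (1 + x + x ^ 2) * (1 - c * (1 + y + y ^ 2)) +
      c * (1 + y + y ^ 2) * (1 - c * (1 + x + x ^ 2)) +
      c * (1 + x * y + (x * y) ^ 2) * (1 - c * (1 + x + x ^ 2)) +
      c * (1 + x * y ^ 2 + (x * y ^ 2) ^ 2) * (1 - c * (1 + x + x ^ 2)) = 1 := by
    linear_combination (-1 : A) * s3 - s4 - he₀ + c * x ^ 2 * y * hy +
      (1 - c * (1 + x + x ^ 2) * (1 + y + y ^ 2)) * hc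
  refine ⟨![e₀, c * (1 + x + x ^ 2) * (1 - c * (1 + y + y ^ 2)),
    c * (1 + y + y ^ 2) * (1 - c * (1 + x + x ^ 2)),
    c * (1 + x * y + (x * y) ^ 2) * (1 - c * (1 + x + x ^ 2)),
    c * (1 + x * y ^ 2 + (x * y ^ 2) ^ 2) * (1 - c * (1 + x + x ^ 2))],
    fun l => ?_, fun a ha => ?_⟩
  · fin_cases l
    exacts [i0, i1, i2, i3, i4]
  · have key : ∀ {e : A}, (∀ a, a * e ≠ 0 → ∃ b, b * a = e) → a * e ≠ 0 →
        ∃ b, b * a = e ∧ e ≠ 0 := fun f h =>
      (f a h).imp fun _ hb => ⟨hb, fun h0 => h (by rw [h0, mul_zero])⟩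
    by_cases h0 : a * e₀ = 0
    swap
    · exact ⟨0, key f0 h0⟩
    by_contra hcon
    have h1 : a * (c * (1 + x + x ^ 2) * (1 - c * (1 + y + y ^ 2))) = 0 :=
      of_not_not fun h => hcon ⟨1, key f1 h⟩
    have h2 : a * (c * (1 + y + y ^ 2) * (1 - c * (1 + x + x ^ 2))) = 0 :=
      of_not_not fun h => hcon ⟨2, key f2 h⟩
    have h3 : a * (c * (1 + x * y + (x * y) ^ 2) * (1 - c * (1 + x + x ^ 2))) = 0 :=
      of_not_not fun h => hcon ⟨3, key f3 h⟩
    have h4 : a * (c * (1 + x * y ^ 2 + (x * y ^ 2) ^ 2) * (1 - c * (1 + x + x ^ 2))) = 0 :=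
      of_not_not fun h => hcon ⟨4, key f4 h⟩
    exact ha (by linear_combination h0 + h1 + h2 + h3 + h4 - a * hsum)

end Algebra

section Group

variable {G : Type} [Group G] [Finite G]

instance finDimLp : FiniteDimensional ℝ (lp (fun _ : G => ℝ) 2) := by
  have := Fintype.ofFinite G
  exact (lpPiLpₗᵢ (fun _ : G => ℝ) ℝ (p := 2)).symm.toLinearEquiv.finiteDimensional

/-- Left translation on `ℓ²(G)`. -/
def transl (g : G) : lp (fun _ : G => ℝ) 2 →L[ℝ] lp (fun _ : G => ℝ) 2 :=
  LinearMap.toContinuousLinearMap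
    { toFun := fun u => ⟨fun x => u (g⁻¹ * x), Memℓp.all _⟩
      map_add' := fun _ _ => rfl
      map_smul' := fun _ _ => rfl }

theorem transl_apply (g : G) (u : lp (fun _ : G => ℝ) 2) (x : G) :
    transl g u x = u (g⁻¹ * x) := rfl

/-- The regular representation. -/
def translHom : G →* (lp (fun _ : G => ℝ) 2 →L[ℝ] lp (fun _ : G => ℝ) 2) where
  toFun := transl
  map_one' := by
    ext u x
    rw [transl_apply, inv_one, one_mul]
    rfl
  map_mul' g h := by
    ext u x
    change u ((g * h)⁻¹ * x) = u (h⁻¹ * (g⁻¹ * x))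
    rw [mul_inv_rev, mul_assoc]

/-- The group C*-algebra as a subalgebra. -/
def redSub (G : Type) [Group G] :
    Subalgebra ℝ (lp (fun _ : G => ℝ) 2 →L[ℝ] lp (fun _ : G => ℝ) 2) :=
  (Algebra.adjoin ℝ {T : lp (fun _ : G => ℝ) 2 →L[ℝ] lp (fun _ : G => ℝ) 2 |
    ∃ g : G, ∀ u x, T u x = u (g⁻¹ * x)}).topologicalClosure

theorem gens_eq : {T : lp (fun _ : G => ℝ) 2 →L[ℝ] lp (fun _ : G => ℝ) 2 |
    ∃ g : G, ∀ u x, T u x = u (g⁻¹ * x)} = Set.range (translHom (G := G)) := by
  ext T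
  constructor
  · rintro ⟨g, hg⟩
    refine ⟨g, ?_⟩
    ext u x
    exact (hg u x).symm
  · rintro ⟨g, rfl⟩
    exact ⟨g, fun _ _ => rfl⟩

theorem mem_redAlg {T : lp (fun _ : G => ℝ) 2 →L[ℝ] lp (fun _ : G => ℝ) 2} :
    T ∈ redSub G ↔ T ∈ Submodule.span ℝ (Set.range (translHom (G := G))) := by
  have h1 : Subalgebra.toSubmodule (Algebra.adjoin ℝ (Set.range (translHom (G := G)))) =
      Submodule.span ℝ (Set.range (translHom (G := G))) := by
    rw [Algebra.adjoin_eq_span, ← MonoidHom.coe_mrange, Submonoid.closure_eq]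
  have h2 : redSub G = Algebra.adjoin ℝ (Set.range (translHom (G := G))) := by
    unfold redSub
    rw [gens_eq]
    exact le_antisymm (Subalgebra.topologicalClosure_minimal le_rfl
      (Submodule.closed_of_finiteDimensional
        (Subalgebra.toSubmodule (Algebra.adjoin ℝ (Set.range (translHom (G := G)))))))
      (Subalgebra.le_topologicalClosure _)
  rw [h2, ← h1]
  rfl

/-- The translations as elements of the group C*-algebra. -/
def lam : G →* redSub G :=
  translHom.codRestrict (redSub G) fun g => mem_redAlg.2 (Submodule.subset_span ⟨g, rfl⟩)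

theorem mem_span_lam (a : redSub G) : a ∈ Submodule.span ℝ (Set.range (lam (G := G))) := by
  have h := mem_redAlg.1 a.2
  have e : Set.range (translHom (G := G)) = (redSub G).val.toLinearMap '' Set.range lam := by
    rw [← Set.range_comp]
    rfl
  rw [e, ← Submodule.map_span] at h
  obtain ⟨b, hb, hab⟩ := h
  exact (Subtype.ext hab : b = a) ▸ hb

end Group

theorem redAlg_comm {G : Type} [CommGroup G] [Finite G] (a b : redSub G) : a * b = b * a := by
  have h1 : ∀ (g : G) (b : redSub G), lam g * b = b * lam g := fun g b => by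
    induction mem_span_lam b using Submodule.span_induction with
    | mem x hx =>
      obtain ⟨h, rfl⟩ := hx
      rw [← map_mul, ← map_mul, mul_comm]
    | zero => simp
    | add x y _ _ hx hy => rw [mul_add, add_mul, hx, hy]
    | smul r x _ hx => rw [mul_smul_comm, smul_mul_assoc, hx]
  induction mem_span_lam a using Submodule.span_induction with
  | mem x hx =>
    obtain ⟨h, rfl⟩ := hx
    exact h1 h b
  | zero => simp
  | add x y _ _ hx hy => rw [mul_add, add_mul, hx, hy]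
  | smul r x _ hx => rw [mul_smul_comm, smul_mul_assoc, hx]

/-- `KO_0(C*_r((ℤ/3)²; ℝ))` has rank at most `5`. -/
theorem K0_rank' (v : Fin 6 → K0 (redSub (Multiplicative (ZMod 3 × ZMod 3)))) :
    ¬ LinearIndependent ℤ v := by
  let : CommRing (redSub (Multiplicative (ZMod 3 × ZMod 3))) :=
    { (inferInstance : Ring _) with mul_comm := redAlg_comm }
  have hx : (Multiplicative.ofAdd ((1, 0) : ZMod 3 × ZMod 3)) ^ 3 = 1 := by decide
  have hy : (Multiplicative.ofAdd ((0, 1) : ZMod 3 × ZMod 3)) ^ 3 = 1 := by decide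
  have hg : ∀ g : Multiplicative (ZMod 3 × ZMod 3), ∃ i j : Fin 3,
      g = Multiplicative.ofAdd ((1, 0) : ZMod 3 × ZMod 3) ^ (i : ℕ) *
        Multiplicative.ofAdd ((0, 1) : ZMod 3 × ZMod 3) ^ (j : ℕ) := by decide
  obtain ⟨e, he, H⟩ := five_idem (A := redSub (Multiplicative (ZMod 3 × ZMod 3))) lam mem_span_lam
    (x := lam (Multiplicative.ofAdd (1, 0))) (y := lam (Multiplicative.ofAdd (0, 1)))
    (by rw [← map_pow, hx, map_one]) (by rw [← map_pow, hy, map_one]) fun g => by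
      obtain ⟨i, j, h⟩ := hg g
      exact ⟨i, j, by rw [h, map_mul, map_pow, map_pow]⟩
  have : IsArtinianRing (redSub (Multiplicative (ZMod 3 × ZMod 3))) :=
    IsArtinianRing.of_finite ℝ _
  exact not_indep_of_gen e he H v

theorem K0_rank (v : Fin 6 → K0 (redAlg (Multiplicative (ZMod 3 × ZMod 3)))) :
    ¬ LinearIndependent ℤ v := K0_rank' v

/-- A trace on `A` gives an additive map on `K_0(A)`. -/
def traceK {A : Type} [Ring A] (τ : A →+ ℝ) (hτ : ∀ a b, τ (a * b) = τ (b * a)) : K0 A →+ ℝ :=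
  QuotientAddGroup.lift _ (FreeAbelianGroup.lift fun p : Idem A => τ p.2.1.trace) (by
    rw [AddSubgroup.closure_le]
    rintro r (⟨p, q, u, v, h1, h2, rfl⟩ | ⟨p, q, s, h, rfl⟩)
    · simp only [SetLike.mem_coe, AddMonoidHom.mem_ker, map_sub, FreeAbelianGroup.lift_apply_of]
      rw [← h1, ← h2, sub_eq_zero]
      simp only [Matrix.trace, Matrix.diag, Matrix.mul_apply, map_sum]
      rw [Finset.sum_comm]
      exact Finset.sum_congr rfl fun i _ => Finset.sum_congr rfl fun j _ => hτ _ _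
    · simp only [SetLike.mem_coe, AddMonoidHom.mem_ker, map_sub, FreeAbelianGroup.lift_apply_of]
      rw [h, sub_sub, sub_eq_zero, ← map_add]
      congr 1
      simp only [Matrix.trace, Matrix.diag, Matrix.reindex_apply, Matrix.submatrix_apply]
      rw [finSumFinEquiv.symm.sum_comp fun i => Matrix.fromBlocks p.2.1 0 0 q.2.1 i i,
        Fintype.sum_sum_type]
      rfl)

/-- `KO_0(C*_r(1; ℝ))` has a nonzero real-valued additive invariant. -/
theorem K0_triv' : ∃ (r : K0 (redSub Unit) →+ ℝ) (y : K0 (redSub Unit)), r y ≠ 0 := by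
  let τ : redSub Unit →+ ℝ :=
    { toFun := fun a => a.1 (lp.single 2 () (1 : ℝ)) ()
      map_zero' := rfl
      map_add' := fun _ _ => rfl }
  refine ⟨traceK τ fun a b => by rw [redAlg_comm], kc1 1 (one_mul 1), ?_⟩
  have : traceK τ (fun a b => by rw [redAlg_comm]) (kc1 1 (one_mul 1)) =
      τ (Matrix.of fun _ _ : Fin 1 => (1 : redSub Unit)).trace := FreeAbelianGroup.lift_apply_of _ _
  have h1 : τ 1 = 1 := lp.single_apply_self (E := fun _ : Unit => ℝ) 2 () 1
  rw [this]
  simp [h1, Matrix.trace]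

theorem K0_triv : ∃ (r : K0 (redAlg Unit) →+ ℝ) (y : K0 (redAlg Unit)), r y ≠ 0 := K0_triv'

end

end Pool.Agent.P.MP_8db816_gt
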