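import Pool.Agent.P.MP_8db816_gt.Ind

/-! The classes `[G/K × c]` are linearly independent in the Stolz group of a finite abelian
group `G` as soon as an additive real invariant does not vanish on `[c]`. -/

namespace Pool.Agent.P.MP_8db816_gt

open Function

noncomputable section

variable {G : Type} [CommGroup G] [Finite G] {n : ℕ}

omit [Finite G] in
theorem fix_iff (H K : Subgroup G) (s : G ⧸ K) : (∀ g : H, H.subtype g • s = s) ↔ H ≤ K := by
  obtain ⟨x, rfl⟩ := QuotientGroup.mk_surjective s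
  have key : ∀ g : G, g • (x : G ⧸ K) = x ↔ g ∈ K := fun g => by
    rw [MulAction.Quotient.smul_mk, eq_comm, QuotientGroup.eq, smul_eq_mul, mul_comm g x,
      inv_mul_cancel_left]
  exact ⟨fun h g hg => (key g).1 (h ⟨g, hg⟩), fun h g => (key _).2 (h g.2)⟩

theorem indep_ind (𝔅 : Factor) (r : Stolz Unit Unit 𝔅 n →+ ℝ) {k : ℕ}
    (c : Cycle Unit Unit (n + 8 * k)) (hc : r (Stolz.cls 𝔅 n k c) ≠ 0) :
    LinearIndependent ℤ fun K : Subgroup G => Stolz.cls 𝔅 n k (c.ind G (G ⧸ K)) := by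
  have := Fintype.ofFinite (Subgroup G)
  rw [Fintype.linearIndependent_iff]
  intro a ha
  by_contra hne
  push Not at hne
  obtain ⟨H, hH, hmax⟩ := (Set.toFinite {K : Subgroup G | a K ≠ 0}).exists_maximal hne
  let ρ : Stolz G Unit 𝔅 n →+ ℝ :=
    r.comp ((resR 𝔅 n (1 : Unit →* H)).comp ((projR 𝔅 n).comp (resR 𝔅 n H.subtype)))
  have hρ : ∀ K : Subgroup G, ρ (Stolz.cls 𝔅 n k (c.ind G (G ⧸ K))) =
      Nat.card {s : G ⧸ K // ∀ g : H, H.subtype g • s = s} • r (Stolz.cls 𝔅 n k c) := fun K => by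
    rw [← map_nsmul, ← cls_ind]
    rfl
  have h := congrArg ρ ha
  rw [map_sum, map_zero, Finset.sum_eq_single H] at h
  · rw [map_zsmul, hρ, smul_eq_zero, smul_eq_zero] at h
    rcases h with h | h | h
    · exact hH h
    · have : Nonempty {s : G ⧸ H // ∀ g : H, H.subtype g • s = s} :=
        ⟨⟨(1 : G), (fix_iff H H _).2 le_rfl⟩⟩
      exact Nat.card_pos.ne' h
    · exact hc h
  · intro K _ hK
    by_cases hK0 : a K = 0
    · rw [hK0, zero_smul, map_zero]
    · have : IsEmpty {s : G ⧸ K // ∀ g : H, H.subtype g • s = s} := ⟨fun s => by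
        have hle := (fix_iff H K _).1 s.2
        exact hK (le_antisymm (hmax hK0 hle) hle)⟩
      rw [map_zsmul, hρ, Nat.card_of_isEmpty, zero_smul, smul_zero]
  · intro h
    exact absurd (Finset.mem_univ H) h

theorem exists_cls {Γ X : Type} [Group Γ] [TopologicalSpace X] [MulAction Γ X] (𝔅 : Factor)
    (r : Stolz Γ X 𝔅 n →+ ℝ) {x : Stolz Γ X 𝔅 n} (hx : r x ≠ 0) :
    ∃ k c, r (Stolz.cls 𝔅 n k c) ≠ 0 := by
  by_contra h
  push Not at h
  apply hx
  obtain ⟨y, rfl⟩ := QuotientAddGroup.mk_surjective x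
  have : r.comp (QuotientAddGroup.mk' _) = 0 := FreeAbelianGroup.lift_ext _ _ fun z => h z.1 z.2
  exact DFunLike.congr_fun this y

/-- The subgroup of `(ℤ/3)²` cut out by two linear forms. -/
def cutSub (a b : ZMod 3 × ZMod 3) : Subgroup (Multiplicative (ZMod 3 × ZMod 3)) where
  carrier := {g | a.1 * g.toAdd.1 + a.2 * g.toAdd.2 = 0 ∧ b.1 * g.toAdd.1 + b.2 * g.toAdd.2 = 0}
  mul_mem' := by
    rintro g h ⟨g1, g2⟩ ⟨h1, h2⟩
    simp only [Set.mem_ofPred_eq, toAdd_mul, Prod.fst_add, Prod.snd_add]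
    constructor
    · linear_combination g1 + h1
    · linear_combination g2 + h2
  one_mem' := by simp
  inv_mem' := by
    rintro g ⟨g1, g2⟩
    simp only [Set.mem_ofPred_eq, toAdd_inv, Prod.fst_neg, Prod.snd_neg]
    constructor
    · linear_combination -g1
    · linear_combination -g2

/-- The pairs of linear forms defining the six subgroups. -/
def forms : Fin 6 → (ZMod 3 × ZMod 3) × (ZMod 3 × ZMod 3) :=
  ![((0, 0), (0, 0)), ((1, 0), (0, 0)), ((0, 1), (0, 0)), ((1, 1), (0, 0)), ((1, 2), (0, 0)),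
    ((1, 0), (0, 1))]

theorem six_subgroups : Injective fun i : Fin 6 => cutSub (forms i).1 (forms i).2 := by
  have key : ∀ i j : Fin 6, (∀ g : ZMod 3 × ZMod 3,
      ((forms i).1.1 * g.1 + (forms i).1.2 * g.2 = 0 ∧
        (forms i).2.1 * g.1 + (forms i).2.2 * g.2 = 0) ↔
      ((forms j).1.1 * g.1 + (forms j).1.2 * g.2 = 0 ∧
        (forms j).2.1 * g.1 + (forms j).2.2 * g.2 = 0)) → i = j := by decide
  intro i j h
  exact key i j fun g => SetLike.ext_iff.1 h (Multiplicative.ofAdd g)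

end

end Pool.Agent.P.MP_8db816_gt
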