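import Pool.Agent.P.MP_8db816_gt.Res

/-! A triple that is a disjoint union of `m` copies of `c` has class `m • [c]`. -/

namespace Pool.Agent.P.MP_8db816_gt

open scoped Manifold ContDiff Topology
open Set Function TopologicalSpace Filter

noncomputable section

variable {Γ : Type} [Group Γ] {m n d : ℕ}

theorem isGEmb_val {A : GMfd Γ n} (S : Sub A) : IsGEmb S.mfd A Subtype.val :=
  ⟨isEmb_val S.op, fun _ _ => rfl⟩

theorem diff_val {A : GMfd Γ n} (S : Sub A) (x : S.mfd.M) :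
    diff S.mfd A Subtype.val x = id := congrArg DFunLike.coe (md_val (I := model n) S.op x)

theorem IsGEmb.cod {A : GMfd Γ m} {C : GMfd Γ n} {φ : A.M → C.M} (h : IsGEmb A C φ)
    {T : Sub C} {φ' : A.M → T.mfd.M} (e : ∀ x, (φ' x).1 = φ x) :
    IsGEmb A T.mfd φ' ∧ ∀ x, diff A T.mfd φ' x = diff A C φ x := by
  have e' : Subtype.val ∘ φ' = φ := funext e
  have hs : ContMDiff (model m) (model n) ∞ (Subtype.val ∘ φ') := e' ▸ h.1.1
  have hd : ∀ x, diff A T.mfd φ' x = diff A C φ x := fun x =>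
    congrArg DFunLike.coe ((md_cod (U := T.op) hs x).trans (by rw [e']; rfl))
  refine ⟨⟨⟨contMDiff_cod (U := T.op) hs, ?_, fun x => ?_⟩, fun g x => Subtype.ext ?_⟩, hd⟩
  · have : Topology.IsEmbedding (Subtype.val ∘ φ') := e' ▸ h.1.2.1
    exact Topology.IsEmbedding.subtypeVal.of_comp_iff.1 this
  · have : Injective (diff A T.mfd φ' x) := by rw [hd]; exact h.1.2.2 x
    exact this
  · rw [e, h.2]
    exact congrArg (g • ·) (e x).symm

variable {X : Type} [TopologicalSpace X] [MulAction Γ X]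

theorem isPart_val (c : Cycle Γ X d) (S : Sub c.L) : IsPart (c.restrict S) c Subtype.val := by
  refine ⟨isGEmb_val S, ?_, rfl, ⟨Subtype.val, isGEmb_val _, rfl, fun x v w => ?_⟩, Subtype.val,
    continuous_subtype_val, Subtype.val_injective, fun _ _ => rfl, fun p => ⟨rfl, fun k => ?_⟩⟩
  · have : range (Subtype.val : S.op → c.L.M) = S.U := Subtype.range_coe
    exact this ▸ S.clopen.isOpen
  · rw [diff_val]
    rfl
  · rw [diff_val]
    rfl

theorem IsPart.cod {c₁ c : Cycle Γ X d} {a : c₁.L.M → c.L.M} (h : IsPart c₁ c a) {S : Sub c.L}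
    (hS : ∀ x, a x ∈ S.U) : IsPart c₁ (c.restrict S) (fun x => ⟨a x, hS x⟩) := by
  obtain ⟨ha, ho, hf, ⟨b, hb, hib, hiso⟩, A, hA, hAi, hAe, hAp⟩ := h
  have hbm : ∀ x, c.i (b x) ∈ S.U := fun x => by
    have : c.i (b x) = a (c₁.i x) := congrFun hib x
    rw [this]
    exact hS _
  have hAm : ∀ p, A p ∈ c.σ.resSet S := fun p => by
    change (c.σ.ξ (A p)).pt ∈ S.U
    rw [(hAp p).1]
    exact hS _
  have hb' := hb.cod (T := S.comap c.emb) (φ' := fun x => ⟨b x, hbm x⟩) fun _ => rfl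
  have ha' := ha.cod (T := S) (φ' := fun x => ⟨a x, hS x⟩) fun _ => rfl
  refine ⟨ha'.1, ?_, hf, ⟨fun x => ⟨b x, hbm x⟩, hb'.1,
    funext fun x => Subtype.ext (congrFun hib x), fun x v w => ?_⟩,
    fun p => ⟨A p, hAm p⟩, hA.subtype_mk _, fun p q hpq => hAi (congrArg Subtype.val hpq),
    fun g p => Subtype.ext (hAe g p), fun p => ⟨Subtype.ext (hAp p).1, fun k => ?_⟩⟩
  · have : range (fun x => (⟨a x, hS x⟩ : S.op)) = Subtype.val ⁻¹' range a := by
      ext y
      exact ⟨fun ⟨x, hx⟩ => ⟨x, congrArg Subtype.val hx⟩, fun ⟨x, hx⟩ => ⟨x, Subtype.ext hx⟩⟩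
    exact this ▸ ho.preimage continuous_subtype_val
  · rw [hb'.2]
    exact hiso x v w
  · rw [ha'.2]
    exact (hAp p).2 k

theorem cls_parts (𝔅 : Factor) {k : ℕ} (c : Cycle Γ X (n + 8 * k)) (m : ℕ) :
    ∀ (c' : Cycle Γ X (n + 8 * k)) (a : Fin m → c.L.M → c'.L.M), (∀ t, IsPart c c' (a t)) →
      (∀ s t x y, a s x = a t y → s = t) → (∀ z, ∃ t x, a t x = z) →
      Stolz.cls 𝔅 n k c' = m • Stolz.cls 𝔅 n k c := by
  induction m with
  | zero =>
    intro c' a _ _ hs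
    have : IsEmpty c'.L.M := ⟨fun z => by obtain ⟨t, -⟩ := hs z; exact t.elim0⟩
    rw [cls_empty, zero_smul]
  | succ m ih =>
    intro c' a hp hd hs
    have hU : (range (a 0))ᶜ = ⋃ t : Fin m, range (a t.succ) := by
      ext z
      simp only [mem_compl_iff, mem_range, mem_iUnion]
      constructor
      · intro hz
        obtain ⟨t, x, hx⟩ := hs z
        refine Fin.cases (fun hx => absurd ⟨x, hx⟩ hz) (fun t hx => ⟨t, x, hx⟩) t hx
      · rintro ⟨t, x, rfl⟩ ⟨y, hy⟩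
        exact Fin.succ_ne_zero t (hd _ _ _ _ hy).symm
    let S : Sub c'.L :=
      { U := (range (a 0))ᶜ
        clopen := ⟨(hp 0).2.1.isClosed_compl, hU ▸ isOpen_iUnion fun t => (hp t.succ).2.1⟩
        inv := by
          rintro g z hz ⟨x, hx⟩
          exact hz ⟨g⁻¹ • x, by rw [(hp 0).1.2, hx, inv_smul_smul]⟩ }
    have hm : ∀ (t : Fin m) x, a t.succ x ∈ S.U := fun t x => by
      change a t.succ x ∈ (range (a 0))ᶜ
      rw [hU]
      exact mem_iUnion.2 ⟨t, x, rfl⟩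
    have h1 : IsSum c' c (c'.restrict S) := ⟨a 0, Subtype.val, hp 0, isPart_val c' S, by
      have : range (Subtype.val : S.op → c'.L.M) = (range (a 0))ᶜ := Subtype.range_coe
      exact this ▸ isCompl_compl⟩
    have h2 := ih (c'.restrict S) (fun t x => ⟨a t.succ x, hm t x⟩)
      (fun t => (hp t.succ).cod (hm t))
      (fun s t x y h => Fin.succ_injective _ (hd _ _ x y (congrArg Subtype.val h))) fun z => by
        have hz : z.1 ∈ (range (a 0))ᶜ := z.2
        rw [hU] at hz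
        obtain ⟨t, x, hx⟩ := mem_iUnion.1 hz
        exact ⟨t, x, Subtype.ext hx⟩
    rw [cls_sum 𝔅 h1, h2, succ_nsmul']

theorem cls_parts' (𝔅 : Factor) {k : ℕ} {c c' : Cycle Γ X (n + 8 * k)} {T : Type} [Finite T]
    (a : T → c.L.M → c'.L.M) (hp : ∀ t, IsPart c c' (a t))
    (hd : ∀ s t x y, a s x = a t y → s = t) (hs : ∀ z, ∃ t x, a t x = z) :
    Stolz.cls 𝔅 n k c' = Nat.card T • Stolz.cls 𝔅 n k c := by
  let e := Finite.equivFin T
  refine cls_parts 𝔅 c _ c' (fun t => a (e.symm t)) (fun t => hp _)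
    (fun s t x y h => e.symm.injective (hd _ _ x y h)) fun z => ?_
  obtain ⟨t, x, hx⟩ := hs z
  exact ⟨e t, x, by rw [e.symm_apply_apply, hx]⟩

/-- Restricting the action of the trivial group twice changes nothing. -/
theorem cls_res_res {Λ : Type} [Group Λ] [Finite Λ] (𝔅 : Factor) {k : ℕ}
    (c : Cycle Unit Unit (n + 8 * k)) :
    Stolz.cls 𝔅 n k ((c.res (1 : Λ →* Unit)).res (1 : Unit →* Λ)) = Stolz.cls 𝔅 n k c := by
  have h : IsPart c ((c.res (1 : Λ →* Unit)).res (1 : Unit →* Λ)) id :=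
    ⟨isGEmb_id c.L, by rw [range_id]; exact isOpen_univ, rfl,
      ⟨id, isGEmb_id c.N, rfl, fun x v w => (isPart_id c).2.2.2.1.elim fun _ _ => by
        change c.h.β x (diff c.N c.N id x v) (diff c.N c.N id x w) = c.h.β x v w
        rw [diff_id]; rfl⟩,
      id, continuous_id, injective_id, fun _ _ => rfl, fun p => ⟨rfl, fun j => by
        change (c.σ.ξ p).vec j = (diff c.L c.L id _ ((c.σ.ξ p).vec j).1, ((c.σ.ξ p).vec j).2)
        rw [diff_id]; rfl⟩⟩
  have := cls_parts 𝔅 c 1 _ (fun _ => id) (fun _ => h) (fun _ _ _ _ _ => Subsingleton.elim _ _)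
    fun z => ⟨0, z, rfl⟩
  rwa [one_smul] at this

end

end Pool.Agent.P.MP_8db816_gt
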