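import Pool.Agent.P.MP_8db816_gt.Restrict

/-! Passing to the part with trivial action respects all relations of the Stolz group. -/

namespace Pool.Agent.P.MP_8db816_gt

open scoped Manifold ContDiff Topology
open Set Function TopologicalSpace Filter

noncomputable section

variable {Γ : Type} [Group Γ] {m n d : ℕ}

theorem range_restrict {α β : Type} {S : Set α} {T : Set β} {φ : α → β} {φ' : S → T}
    (e : ∀ x, (φ' x).1 = φ x.1) (h : ∀ x, φ x ∈ T → x ∈ S) :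
    range φ' = Subtype.val ⁻¹' range φ := by
  ext y
  constructor
  · rintro ⟨x, rfl⟩
    exact ⟨x.1, (e x).symm⟩
  · rintro ⟨x, hx⟩
    exact ⟨⟨x, h x (hx ▸ y.2)⟩, Subtype.ext ((e _).trans hx)⟩

theorem IsCollar.restrict {N : GMfd Γ m} {V : GMfd Γ n} {h : GMetric N} {H : GMetric V}
    {k : N.M → V.M} (hc : IsCollar h H k) {S : Sub N} {T : Sub V} {k' : S.mfd.M → T.mfd.M}
    (e : ∀ x, (k' x).1 = k x.1) : IsCollar (h.restrict S) (H.restrict T) k' := by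
  obtain ⟨c, δ, hδ, hemb, hk, hm⟩ := hc
  have hmem : ∀ z : S.op × Icc (0 : ℝ) 1, c (z.1.1, z.2) ∈ T.U := by
    rintro ⟨x, t⟩
    have h1 : IsClopen ((fun t : Icc (0 : ℝ) 1 => c (x.1, t)) ⁻¹' T.U) :=
      T.clopen.preimage (hemb.1.continuous.comp (Continuous.prodMk_right x.1))
    have h2 : (⊥ : Icc (0 : ℝ) 1) ∈ (fun t : Icc (0 : ℝ) 1 => c (x.1, t)) ⁻¹' T.U := by
      change c (x.1, ⊥) ∈ T.U
      rw [hk, ← e]
      exact (k' x).2
    have h3 := h1.eq_univ ⟨_, h2⟩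
    exact (h3 ▸ mem_univ t : t ∈ (fun t : Icc (0 : ℝ) 1 => c (x.1, t)) ⁻¹' T.U)
  obtain ⟨h1, h2⟩ := hemb.restrictProd (U := S.op) (U' := T.op)
    (f' := fun z => ⟨c (z.1.1, z.2), hmem z⟩) fun _ => rfl
  refine ⟨fun z => ⟨c (z.1.1, z.2), hmem z⟩, δ, hδ, h1,
    fun x => Subtype.ext ((hk x.1).trans (e x).symm), fun z v w => ?_⟩
  have h3 := hm (z.1.1, z.2) v w
  change H.β _ (md _ _ c _ v) (md _ _ c _ w) = _ at h3
  rw [← h2] at h3
  exact h3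

theorem SpinRes.restrict {L : GMfd Γ d} {W : GMfd Γ (d + 1)} {σ : Spin L} {τ : Spin W}
    {j : L.M → W.M} {ε : ℝ} (hj : IsGEmb L W j) (h : SpinRes σ τ j ε) {S : Sub L} {T : Sub W}
    {j' : S.mfd.M → T.mfd.M} (e : ∀ x, (j' x).1 = j x.1) :
    SpinRes (σ.restrict S) (τ.restrict T) j' ε := by
  obtain ⟨J, ν, hc, hi, he, hν, hfr⟩ := h
  have hmem : ∀ p : σ.resSet S, J p.1 ∈ τ.resSet T := fun p => by
    change (τ.ξ (J p.1)).pt ∈ T.U
    rw [(hfr p.1).1, ← e ⟨_, p.2⟩]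
    exact (j' _).2
  refine ⟨fun p => ⟨J p.1, hmem p⟩, fun x => ν x.1, (hc.comp continuous_subtype_val).subtype_mk _,
    fun p q hpq => Subtype.ext (hi (congrArg Subtype.val hpq)),
    fun g p => Subtype.ext (he g p.1), fun x => hν x.1, fun p => ⟨?_, (hfr p.1).2.1, fun k => ?_⟩⟩
  · exact Subtype.ext ((hfr p.1).1.trans (e ⟨_, p.2⟩).symm)
  · rw [(hj.restrict e).2]
    exact (hfr p.1).2.2 k

variable {X : Type} [TopologicalSpace X] [MulAction Γ X]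

theorem Bordant.triv [Finite Γ] {c₁ c₂ : Cycle Γ X d} (h : Bordant c₁ c₂) :
    Bordant c₁.triv c₂.triv := by
  obtain ⟨V, H, k₁, k₂, W, τ, E, j₁, j, j₂, hH, hk₁, hk₂, hdk, hbV, hc₁, hc₂, hj₁, hj, hj₂, hbW,
    e₁, e₂, s₁, s₂, hdj, r₁, r₂, hE, hEe, f₁, f₂⟩ := h
  have m₁ : ∀ x, j₁ x ∈ core W ↔ x ∈ core c₁.L := fun x => core_spinRes hj₁ r₁
  have m₂ : ∀ x, j₂ x ∈ core W ↔ x ∈ core c₂.L := fun x => core_spinRes hj₂ r₂
  have n₁ : ∀ x, j (k₁ x) ∈ core W ↔ c₁.i x ∈ core c₁.L := fun x => by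
    have : j₁ (c₁.i x) = j (k₁ x) := congrFun e₁ x
    rw [← m₁, this]
  have n₂ : ∀ x, j (k₂ x) ∈ core W ↔ c₂.i x ∈ core c₂.L := fun x => by
    have : j₂ (c₂.i x) = j (k₂ x) := congrFun e₂ x
    rw [← m₂, this]
  let SW := coreSub W
  let SV := SW.comap hj
  let k₁' : c₁.triv.N.M → SV.mfd.M := fun x => ⟨k₁ x.1, (n₁ x.1).2 x.2⟩
  let k₂' : c₂.triv.N.M → SV.mfd.M := fun x => ⟨k₂ x.1, (n₂ x.1).2 x.2⟩
  let j₁' : c₁.triv.L.M → SW.mfd.M := fun x => ⟨j₁ x.1, (m₁ x.1).2 x.2⟩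
  let j₂' : c₂.triv.L.M → SW.mfd.M := fun x => ⟨j₂ x.1, (m₂ x.1).2 x.2⟩
  let j' : SV.mfd.M → SW.mfd.M := fun x => ⟨j x.1, x.2⟩
  have rk₁ : range k₁' = Subtype.val ⁻¹' range k₁ :=
    range_restrict (fun _ => rfl) fun x hx => (n₁ x).1 hx
  have rk₂ : range k₂' = Subtype.val ⁻¹' range k₂ :=
    range_restrict (fun _ => rfl) fun x hx => (n₂ x).1 hx
  have rj₁ : range j₁' = Subtype.val ⁻¹' range j₁ :=
    range_restrict (fun _ => rfl) fun x hx => (m₁ x).1 hx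
  have rj₂ : range j₂' = Subtype.val ⁻¹' range j₂ :=
    range_restrict (fun _ => rfl) fun x hx => (m₂ x).1 hx
  have rj : range j' = Subtype.val ⁻¹' range j :=
    range_restrict (fun _ => rfl) fun _ hx => hx
  have rjk₁ : range (j' ∘ k₁') = Subtype.val ⁻¹' range (j ∘ k₁) :=
    range_restrict (fun _ => rfl) fun x hx => (n₁ x).1 hx
  have rjk₂ : range (j' ∘ k₂') = Subtype.val ⁻¹' range (j ∘ k₂) :=
    range_restrict (fun _ => rfl) fun x hx => (n₂ x).1 hx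
  refine ⟨SV.mfd, H.restrict SV, k₁', k₂', SW.mfd, τ.restrict SW, fun x => E x.1, j₁', j', j₂',
    hH.restrict SV, (hk₁.restrict fun _ => rfl).1, (hk₂.restrict fun _ => rfl).1, ?_, ?_,
    hc₁.restrict fun _ => rfl, hc₂.restrict fun _ => rfl, (hj₁.restrict fun _ => rfl).1,
    (hj.restrict fun _ => rfl).1, (hj₂.restrict fun _ => rfl).1, ?_,
    funext fun x => Subtype.ext (congrFun e₁ x.1), funext fun x => Subtype.ext (congrFun e₂ x.1),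
    ?_, ?_, ?_, r₁.restrict hj₁ fun _ => rfl, r₂.restrict hj₂ fun _ => rfl,
    hE.comp continuous_subtype_val, fun g x => hEe g x.1,
    funext fun x => congrFun f₁ x.1, funext fun x => congrFun f₂ x.1⟩
  · rw [rk₁, rk₂]
    exact hdk.preimage _
  · rw [rk₁, rk₂, bd_restrict, ← hbV, preimage_union]
  · rw [rj₁, rj, rj₂, bd_restrict, ← hbW, preimage_union, preimage_union]
  · rw [rj₁, rj, rjk₁, ← preimage_inter]
    exact preimage_mono s₁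
  · rw [rj₂, rj, rjk₂, ← preimage_inter]
    exact preimage_mono s₂
  · rw [rj₁, rj₂]
    exact hdj.preimage _

theorem IsPart.restrict {c₁ c : Cycle Γ X d} {a : c₁.L.M → c.L.M} (h : IsPart c₁ c a)
    {S₁ : Sub c₁.L} {S : Sub c.L} (hS : ∀ x, a x ∈ S.U ↔ x ∈ S₁.U) :
    IsPart (c₁.restrict S₁) (c.restrict S) (fun x => ⟨a x.1, (hS x.1).2 x.2⟩) := by
  obtain ⟨ha, ho, hf, ⟨b, hb, hib, hiso⟩, A, hA, hAi, hAe, hAp⟩ := h
  have hbm : ∀ x, c₁.i x ∈ S₁.U → c.i (b x) ∈ S.U := fun x hx => by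
    have : c.i (b x) = a (c₁.i x) := congrFun hib x
    rw [this]
    exact (hS _).2 hx
  have hAm : ∀ p : c₁.σ.resSet S₁, A p.1 ∈ c.σ.resSet S := fun p => by
    change (c.σ.ξ (A p.1)).pt ∈ S.U
    rw [(hAp p.1).1]
    exact (hS _).2 p.2
  have hb' := hb.restrict (S := S₁.comap c₁.emb) (T := S.comap c.emb)
    (φ' := fun x => ⟨b x.1, hbm x.1 x.2⟩) fun _ => rfl
  have ha' := ha.restrict (S := S₁) (T := S) (φ' := fun x => ⟨a x.1, (hS x.1).2 x.2⟩) fun _ => rfl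
  refine ⟨ha'.1, ?_, funext fun x => congrFun hf x.1,
    ⟨fun x => ⟨b x.1, hbm x.1 x.2⟩, hb'.1, funext fun x => Subtype.ext (congrFun hib x.1),
      fun x v w => ?_⟩,
    fun p => ⟨A p.1, hAm p⟩, (hA.comp continuous_subtype_val).subtype_mk _,
    fun p q hpq => Subtype.ext (hAi (congrArg Subtype.val hpq)),
    fun g p => Subtype.ext (hAe g p.1), fun p => ⟨Subtype.ext (hAp p.1).1, fun k => ?_⟩⟩
  · have : range (fun x : S₁.op => (⟨a x.1, (hS x.1).2 x.2⟩ : S.op)) =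
        Subtype.val ⁻¹' range a := range_restrict (fun _ => rfl) fun x hx => (hS x).1 hx
    exact this ▸ ho.preimage continuous_subtype_val
  · rw [hb'.2]
    exact hiso x.1 v w
  · rw [ha'.2]
    exact (hAp p.1).2 k

theorem IsSum.triv [Finite Γ] {c c₁ c₂ : Cycle Γ X d} (h : IsSum c c₁ c₂) :
    IsSum c.triv c₁.triv c₂.triv := by
  obtain ⟨a₁, a₂, h₁, h₂, hc⟩ := h
  have m₁ : ∀ x, a₁ x ∈ core c.L ↔ x ∈ core c₁.L := fun x => core_open h₁.1 h₁.2.1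
  have m₂ : ∀ x, a₂ x ∈ core c.L ↔ x ∈ core c₂.L := fun x => core_open h₂.1 h₂.2.1
  refine ⟨_, _, h₁.restrict (S₁ := coreSub c₁.L) (S := coreSub c.L) m₁,
    h₂.restrict (S₁ := coreSub c₂.L) (S := coreSub c.L) m₂, ?_⟩
  have r₁ : range (fun x : (coreSub c₁.L).op => (⟨a₁ x.1, (m₁ x.1).2 x.2⟩ : (coreSub c.L).op)) =
      Subtype.val ⁻¹' range a₁ := range_restrict (fun _ => rfl) fun x hx => (m₁ x).1 hx
  have r₂ : range (fun x : (coreSub c₂.L).op => (⟨a₂ x.1, (m₂ x.1).2 x.2⟩ : (coreSub c.L).op)) =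
      Subtype.val ⁻¹' range a₂ := range_restrict (fun _ => rfl) fun x hx => (m₂ x).1 hx
  have : IsCompl (Subtype.val ⁻¹' range a₁ : Set (coreSub c.L).op) (Subtype.val ⁻¹' range a₂) :=
    hc.preimage _
  rw [← r₁, ← r₂] at this
  exact this

theorem core_prod {A : GMfd Γ m} {C : GMfd Γ n} {B : Type} [TopologicalSpace B]
    {Φ : A.M × B → C.M} (he : Topology.IsEmbedding Φ) (hs : Surjective Φ)
    (hΦ : ∀ (g : Γ) x b, Φ (g • x, b) = g • Φ (x, b)) (z : A.M × B) :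
    Φ z ∈ core C ↔ z.1 ∈ core A := by
  obtain ⟨x, b⟩ := z
  constructor
  · exact core_preimage (φ := fun x => Φ (x, b)) (he.continuous.comp (Continuous.prodMk_left b))
      (fun x y hxy => congrArg Prod.fst (he.injective hxy)) fun g x => hΦ g x b
  · intro hx
    have hoe : Topology.IsOpenEmbedding Φ := ⟨he, by rw [hs.range_eq]; exact isOpen_univ⟩
    rw [mem_core] at hx ⊢
    rw [← hoe.map_nhds_eq, eventually_map]
    filter_upwards [(continuous_fst.continuousAt (x := (x, b))).eventually hx] with y hy g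
    rw [← hΦ, hy g]

theorem IsProdMap.restrict {A : GMfd Γ m} {B : GMfd Unit d} {C : GMfd Γ n}
    {Φ : A.M × B.M → C.M} (h : IsProdMap A B C Φ) {S : Sub A} {T : Sub C}
    (hST : ∀ z, Φ z ∈ T.U ↔ z.1 ∈ S.U) :
    IsProdMap S.mfd B T.mfd (fun z => ⟨Φ (z.1.1, z.2), (hST _).2 z.1.2⟩) ∧
      ∀ z : S.mfd.M × B.M, dv ((model m).prod (model d)) (model n)
        (fun z : S.mfd.M × B.M => (⟨Φ (z.1.1, z.2), (hST _).2 z.1.2⟩ : T.mfd.M)) z =
        dv ((model m).prod (model d)) (model n) Φ (z.1.1, z.2) := by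
  obtain ⟨hΦ, hs, he⟩ := h
  obtain ⟨a₁, a₂⟩ := hΦ.restrictProd (U := S.op) (U' := T.op)
    (f' := fun z => ⟨Φ (z.1.1, z.2), (hST _).2 z.1.2⟩) fun _ => rfl
  refine ⟨⟨a₁, fun y => ?_, fun g x b => Subtype.ext (he g x.1 b)⟩,
    fun z => congrArg DFunLike.coe (a₂ z)⟩
  obtain ⟨z, hz⟩ := hs y.1
  exact ⟨(⟨z.1, (hST z).1 (hz ▸ y.2)⟩, z.2), Subtype.ext hz⟩

theorem IsProd.triv [Finite Γ] {𝔅 : Factor} {c : Cycle Γ X d} {c' : Cycle Γ X (d + 8)}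
    (h : IsProd 𝔅 c c') : IsProd 𝔅 c.triv c'.triv := by
  obtain ⟨Φ, Ψ, hΦ, hf, ⟨μ, hμ, hμ₁, hμ₂, hμe, hfr⟩, hΨ, hi, hm⟩ := h
  have m₁ := core_prod hΦ.1.2.1 hΦ.2.1 hΦ.2.2
  have m₂ : ∀ z, c'.i (Ψ z) ∈ core c'.L ↔ c.i z.1 ∈ core c.L := fun z => by
    rw [hi z.1 z.2, m₁]
  have m₃ : ∀ z : c.σ.resSet (coreSub c.L) × {q : 𝔅.σ.Tot // (𝔅.σ.ξ q).IsStd},
      μ (z.1.1, z.2) ∈ c'.σ.resSet (coreSub c'.L) := fun z => by
    change (c'.σ.ξ (μ (z.1.1, z.2))).pt ∈ core c'.L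
    rw [(hfr _ _).1, m₁]
    exact z.1.2
  obtain ⟨a₁, a₂⟩ := hΦ.restrict (S := coreSub c.L) (T := coreSub c'.L) m₁
  obtain ⟨b₁, b₂⟩ := hΨ.restrict (S := (coreSub c.L).comap c.emb)
    (T := (coreSub c'.L).comap c'.emb) m₂
  refine ⟨_, _, a₁, fun z => hf _, ⟨fun z => ⟨μ (z.1.1, z.2), m₃ z⟩,
    (hμ.comp ((continuous_subtype_val.comp continuous_fst).prodMk continuous_snd)).subtype_mk _,
    fun q p p' hp => Subtype.ext (hμ₁ q (congrArg Subtype.val hp)),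
    fun p q q' hq => hμ₂ p.1 (congrArg Subtype.val hq),
    fun g p q => Subtype.ext (hμe g p.1 q),
    fun p q => ⟨Subtype.ext (hfr p.1 q).1, fun k => ?_, fun l => ?_⟩⟩, b₁,
    fun x b => Subtype.ext (hi x.1 b), fun z v w => ?_⟩
  · exact ((hfr p.1 q).2.1 k).trans (Prod.ext (congrFun
      (a₂ (⟨(c.σ.ξ p.1).pt, p.2⟩, (𝔅.σ.ξ q.1).pt)) _).symm rfl)
  · exact ((hfr p.1 q).2.2 l).trans (Prod.ext (congrFun
      (a₂ (⟨(c.σ.ξ p.1).pt, p.2⟩, (𝔅.σ.ξ q.1).pt)) _).symm rfl)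
  · have h3 := hm (z.1.1, z.2) v w
    rw [← b₂] at h3
    exact h3

/-- The class of a triple of dimension `n + 8k`. -/
def Stolz.cls (𝔅 : Factor) (n k : ℕ) (c : Cycle Γ X (n + 8 * k)) : Stolz Γ X 𝔅 n :=
  QuotientAddGroup.mk (FreeAbelianGroup.of ⟨k, c⟩)

/-- The projector onto the part with trivial action. -/
def projR [Finite Γ] (𝔅 : Factor) (n : ℕ) : Stolz Γ X 𝔅 n →+ Stolz Γ X 𝔅 n :=
  QuotientAddGroup.map _ _
    (FreeAbelianGroup.map fun c : (Σ k : ℕ, Cycle Γ X (n + 8 * k)) => ⟨c.1, c.2.triv⟩) (by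
      rw [AddSubgroup.closure_le]
      rintro r ((⟨k, c₁, c₂, h, rfl⟩ | ⟨k, c, c₁, c₂, h, rfl⟩) | ⟨k, c, c', h, rfl⟩)
      · refine AddSubgroup.subset_closure (Or.inl (Or.inl ⟨k, _, _, h.triv, ?_⟩))
        simp only [map_sub, FreeAbelianGroup.map_of_apply]
      · refine AddSubgroup.subset_closure (Or.inl (Or.inr ⟨k, _, _, _, h.triv, ?_⟩))
        simp only [map_sub, FreeAbelianGroup.map_of_apply]
      · refine AddSubgroup.subset_closure (Or.inr ⟨k, _, _, h.triv, ?_⟩)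
        simp only [map_sub, FreeAbelianGroup.map_of_apply])

theorem projR_cls [Finite Γ] (𝔅 : Factor) {k : ℕ} (c : Cycle Γ X (n + 8 * k)) :
    projR 𝔅 n (Stolz.cls 𝔅 n k c) = Stolz.cls 𝔅 n k c.triv := rfl

theorem cls_sum (𝔅 : Factor) {k : ℕ} {c c₁ c₂ : Cycle Γ X (n + 8 * k)} (h : IsSum c c₁ c₂) :
    Stolz.cls 𝔅 n k c = Stolz.cls 𝔅 n k c₁ + Stolz.cls 𝔅 n k c₂ := by
  have h1 : (QuotientAddGroup.mk (FreeAbelianGroup.of ⟨k, c⟩ - FreeAbelianGroup.of ⟨k, c₁⟩ -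
      FreeAbelianGroup.of ⟨k, c₂⟩) : Stolz Γ X 𝔅 n) = 0 :=
    (QuotientAddGroup.eq_zero_iff _).2
      (AddSubgroup.subset_closure (Or.inl (Or.inr ⟨k, c, c₁, c₂, h, rfl⟩)))
  rw [QuotientAddGroup.mk_sub, QuotientAddGroup.mk_sub, sub_sub, sub_eq_zero] at h1
  exact h1

theorem isGEmb_id (A : GMfd Γ n) : IsGEmb A A id :=
  ⟨⟨contMDiff_id, Topology.IsEmbedding.id, fun x => by rw [mfderiv_id]; exact injective_id⟩,
    fun _ _ => rfl⟩

theorem diff_id (A : GMfd Γ n) (x : A.M) :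
    diff A A id x = id :=
  congrArg DFunLike.coe (mfderiv_id (I := model n) (x := x))

theorem isPart_id (c : Cycle Γ X d) : IsPart c c id :=
  ⟨isGEmb_id _, by rw [range_id]; exact isOpen_univ, rfl,
    ⟨id, isGEmb_id _, rfl, fun x v w => by rw [diff_id]; rfl⟩,
    id, continuous_id, injective_id, fun _ _ => rfl, fun p => ⟨rfl, fun k => by
      rw [diff_id]; rfl⟩⟩

theorem cls_empty (𝔅 : Factor) {k : ℕ} (c : Cycle Γ X (n + 8 * k)) [IsEmpty c.L.M] :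
    Stolz.cls 𝔅 n k c = 0 := by
  have h : IsSum c c c := ⟨id, id, isPart_id c, isPart_id c, by
    rw [Set.eq_empty_of_isEmpty (range (id : c.L.M → c.L.M))]
    exact ⟨disjoint_bot_left, by
      rw [codisjoint_iff]
      exact Subsingleton.elim _ _⟩⟩
  exact left_eq_add.1 (cls_sum 𝔅 h)

end

end Pool.Agent.P.MP_8db816_gt
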