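import Pool.Agent.P.MP_8db816_gt.Proj

/-! Restriction of the group action along a homomorphism of finite groups. -/

namespace Pool.Agent.P.MP_8db816_gt

open scoped Manifold ContDiff Topology
open Set Function TopologicalSpace Filter

noncomputable section

variable {Γ Λ : Type} [Group Γ] [Group Λ] [Finite Γ] [Finite Λ] {m n d : ℕ}

/-- The manifold with the action restricted along `φ`. -/
@[reducible] def GMfd.res (A : GMfd Γ n) (φ : Λ →* Γ) : GMfd Λ n where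
  M := A.M
  act := MulAction.compHom A.M φ
  smooth g := A.smooth (φ g)
  proper := @ProperlyDiscontinuousSMul.mk Λ A.M _ (MulAction.compHom A.M φ).toSMul
    fun _ _ => Set.toFinite _
  cocompact := by
    obtain ⟨K, hK, h⟩ := A.cocompact
    refine ⟨⋃ g : Γ, (fun x => g • x) '' K,
      isCompact_iUnion fun g => hK.image (A.smooth g).continuous, fun x => ⟨1, ?_⟩⟩
    obtain ⟨g, hg⟩ := h x
    refine mem_iUnion.2 ⟨g⁻¹, g • x, hg, ?_⟩
    change g⁻¹ • g • x = φ 1 • x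
    rw [inv_smul_smul, map_one, one_smul]

theorem IsGEmb.res {A : GMfd Γ m} {C : GMfd Γ n} {j : A.M → C.M} (h : IsGEmb A C j)
    (φ : Λ →* Γ) : IsGEmb (A.res φ) (C.res φ) j :=
  ⟨h.1, fun g x => h.2 (φ g) x⟩

/-- The same metric. -/
def GMetric.res {A : GMfd Γ n} (h : GMetric A) (φ : Λ →* Γ) : GMetric (A.res φ) where
  β := h.β
  lin := h.lin
  symm := h.symm
  pos := h.pos
  smooth := h.smooth
  inv g := h.inv (φ g)

/-- The same frames. -/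
def GMfd.resFr (A : GMfd Γ n) (φ : Λ →* Γ) : Frame A ≃ₜ Frame (A.res φ) where
  toFun e := ⟨e.pt, e.vec, e.indep⟩
  invFun e := ⟨e.pt, e.vec, e.indep⟩
  left_inv _ := rfl
  right_inv _ := rfl
  continuous_toFun := (isInducing_frCoord (A.res φ)).continuous_iff.2
    (isInducing_frCoord A).continuous
  continuous_invFun := (isInducing_frCoord A).continuous_iff.2
    (isInducing_frCoord (A.res φ)).continuous

/-- The same spin structure. -/
@[reducible] def Spin.res {A : GMfd Γ n} (σ : Spin A) (φ : Λ →* Γ) : Spin (A.res φ) where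
  Tot := σ.Tot
  act := MulAction.compHom σ.Tot φ
  ξ p := ⟨(σ.ξ p).pt, (σ.ξ p).vec, (σ.ξ p).indep⟩
  cover := σ.cover.homeomorph_comp (A.resFr φ)
  two p := by
    rw [← σ.two p]
    congr 1
    ext q
    exact (A.resFr φ).injective.eq_iff
  conn := σ.conn
  cont g := σ.cont (φ g)
  lift g p := σ.lift (φ g) p

variable {X : Type} [TopologicalSpace X] [MulAction Γ X]

/-- The triple with the action restricted along `φ`, mapped to a point. -/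
@[reducible] def Cycle.res (c : Cycle Γ X d) (φ : Λ →* Γ) : Cycle Λ Unit d where
  L := c.L.res φ
  σ := c.σ.res φ
  γ := c.γ.res φ
  f _ := ()
  f_cont := continuous_const
  f_equiv _ _ := rfl
  N := c.N.res φ
  closed := c.closed
  i := c.i
  emb := c.emb.res φ
  range_i := c.range_i
  h := c.h.res φ
  psc := c.psc

theorem SpinRes.res {L : GMfd Γ d} {W : GMfd Γ (d + 1)} {σ : Spin L} {τ : Spin W}
    {j : L.M → W.M} {ε : ℝ} (h : SpinRes σ τ j ε) (φ : Λ →* Γ) :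
    SpinRes (σ.res φ) (τ.res φ) j ε := by
  obtain ⟨J, ν, hc, hi, he, hν, hfr⟩ := h
  exact ⟨J, ν, hc, hi, fun g p => he (φ g) p, hν, hfr⟩

theorem Bordant.res {c₁ c₂ : Cycle Γ X d} (h : Bordant c₁ c₂) (φ : Λ →* Γ) :
    Bordant (c₁.res φ) (c₂.res φ) := by
  obtain ⟨V, H, k₁, k₂, W, τ, E, j₁, j, j₂, hH, hk₁, hk₂, hdk, hbV, hc₁, hc₂, hj₁, hj, hj₂, hbW,
    e₁, e₂, s₁, s₂, hdj, r₁, r₂, -, -, -, -⟩ := h
  exact ⟨V.res φ, H.res φ, k₁, k₂, W.res φ, τ.res φ, fun _ => (), j₁, j, j₂, hH, hk₁.res φ,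
    hk₂.res φ, hdk, hbV, hc₁, hc₂, hj₁.res φ, hj.res φ, hj₂.res φ, hbW, e₁, e₂, s₁, s₂, hdj,
    r₁.res φ, r₂.res φ, continuous_const, fun _ _ => rfl, rfl, rfl⟩

theorem IsPart.res {c₁ c : Cycle Γ X d} {a : c₁.L.M → c.L.M} (h : IsPart c₁ c a) (φ : Λ →* Γ) :
    IsPart (c₁.res φ) (c.res φ) a := by
  obtain ⟨ha, ho, -, ⟨b, hb, hib, hiso⟩, A, hA, hAi, hAe, hAp⟩ := h
  exact ⟨ha.res φ, ho, rfl, ⟨b, hb.res φ, hib, hiso⟩, A, hA, hAi, fun g p => hAe (φ g) p, hAp⟩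

theorem IsSum.res {c c₁ c₂ : Cycle Γ X d} (h : IsSum c c₁ c₂) (φ : Λ →* Γ) :
    IsSum (c.res φ) (c₁.res φ) (c₂.res φ) := by
  obtain ⟨a₁, a₂, h₁, h₂, hc⟩ := h
  exact ⟨a₁, a₂, h₁.res φ, h₂.res φ, hc⟩

theorem IsProd.res {𝔅 : Factor} {c : Cycle Γ X d} {c' : Cycle Γ X (d + 8)}
    (h : IsProd 𝔅 c c') (φ : Λ →* Γ) : IsProd 𝔅 (c.res φ) (c'.res φ) := by
  obtain ⟨Φ, Ψ, hΦ, -, ⟨μ, hμ, hμ₁, hμ₂, hμe, hfr⟩, hΨ, hi, hm⟩ := h
  exact ⟨Φ, Ψ, ⟨hΦ.1, hΦ.2.1, fun g => hΦ.2.2 (φ g)⟩, fun _ => rfl,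
    ⟨μ, hμ, hμ₁, hμ₂, fun g => hμe (φ g), hfr⟩, ⟨hΨ.1, hΨ.2.1, fun g => hΨ.2.2 (φ g)⟩, hi, hm⟩

/-- Restriction of the action, on Stolz groups. -/
def resR (𝔅 : Factor) (n : ℕ) (φ : Λ →* Γ) : Stolz Γ X 𝔅 n →+ Stolz Λ Unit 𝔅 n :=
  QuotientAddGroup.map _ _
    (FreeAbelianGroup.map fun c : (Σ k : ℕ, Cycle Γ X (n + 8 * k)) => ⟨c.1, c.2.res φ⟩) (by
      rw [AddSubgroup.closure_le]
      rintro r ((⟨k, c₁, c₂, h, rfl⟩ | ⟨k, c, c₁, c₂, h, rfl⟩) | ⟨k, c, c', h, rfl⟩)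
      · refine AddSubgroup.subset_closure (Or.inl (Or.inl ⟨k, _, _, h.res φ, ?_⟩))
        simp only [map_sub, FreeAbelianGroup.map_of_apply]
      · refine AddSubgroup.subset_closure (Or.inl (Or.inr ⟨k, _, _, _, h.res φ, ?_⟩))
        simp only [map_sub, FreeAbelianGroup.map_of_apply]
      · refine AddSubgroup.subset_closure (Or.inr ⟨k, _, _, h.res φ, ?_⟩)
        simp only [map_sub, FreeAbelianGroup.map_of_apply])

theorem resR_cls (𝔅 : Factor) (φ : Λ →* Γ) {k : ℕ} (c : Cycle Γ X (n + 8 * k)) :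
    resR 𝔅 n φ (Stolz.cls 𝔅 n k c) = Stolz.cls 𝔅 n k (c.res φ) := rfl

end

end Pool.Agent.P.MP_8db816_gt
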