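import Pool.Agent.P.MP_8db816_gt.Core

/-! Restriction of manifolds, metrics, spin structures and triples to invariant clopen sets. -/

namespace Pool.Agent.P.MP_8db816_gt

open scoped Manifold ContDiff Topology
open Set Function TopologicalSpace Filter

noncomputable section

variable {Γ : Type} [Group Γ] {m n d : ℕ}

/-- An invariant clopen subset. -/
structure Sub (A : GMfd Γ n) where
  U : Set A.M
  clopen : IsClopen U
  inv : ∀ (g : Γ) x, x ∈ U → g • x ∈ U

/-- The subset as an open set. -/
def Sub.op {A : GMfd Γ n} (S : Sub A) : Opens A.M := ⟨S.U, S.clopen.isOpen⟩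

/-- The restricted action. -/
instance Sub.act {A : GMfd Γ n} (S : Sub A) : MulAction Γ S.op where
  smul g x := ⟨g • x.1, S.inv g x.1 x.2⟩
  one_smul x := Subtype.ext (one_smul Γ x.1)
  mul_smul g h x := Subtype.ext (mul_smul g h x.1)

/-- The restricted manifold. -/
@[reducible] def Sub.mfd {A : GMfd Γ n} (S : Sub A) : GMfd Γ n where
  M := S.op
  act := S.act
  smooth g := contMDiff_cod ((A.smooth g).comp contMDiff_subtype_val)
  proper := @ProperlyDiscontinuousSMul.mk Γ S.op _ S.act.toSMul fun {K L} hK hL => by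
    refine (A.proper.finite_disjoint_inter_image (hK.image continuous_subtype_val)
      (hL.image continuous_subtype_val)).subset ?_
    rintro g ⟨y, ⟨x, hx, rfl⟩, hy⟩
    exact ⟨g • x.1, ⟨x.1, ⟨x, hx, rfl⟩, rfl⟩, ⟨_, hy, rfl⟩⟩
  cocompact := by
    obtain ⟨K, hK, h⟩ := A.cocompact
    exact ⟨Subtype.val ⁻¹' K, S.clopen.isClosed.isClosedEmbedding_subtypeVal.isCompact_preimage hK,
      fun x => h x.1⟩

/-- Preimage of an invariant clopen set. -/
def Sub.comap {A : GMfd Γ m} {C : GMfd Γ n} (S : Sub C) {φ : A.M → C.M} (h : IsGEmb A C φ) :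
    Sub A where
  U := φ ⁻¹' S.U
  clopen := S.clopen.preimage h.1.1.continuous
  inv g x hx := by
    change φ (g • x) ∈ S.U
    rw [h.2]
    exact S.inv g _ hx

theorem IsGEmb.restrict {A : GMfd Γ m} {C : GMfd Γ n} {φ : A.M → C.M} (h : IsGEmb A C φ)
    {S : Sub A} {T : Sub C} {φ' : S.mfd.M → T.mfd.M} (e : ∀ x, (φ' x).1 = φ x.1) :
    IsGEmb S.mfd T.mfd φ' ∧ ∀ x, diff S.mfd T.mfd φ' x = diff A C φ x.1 :=
  ⟨⟨(h.1.restrict e).1, fun g x => Subtype.ext (by
    rw [e]
    exact (h.2 g x.1).trans (congrArg (g • ·) (e x).symm))⟩,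
    fun x => congrArg DFunLike.coe ((h.1.restrict e).2 x)⟩

theorem diff_smul_restrict {A : GMfd Γ n} (S : Sub A) (g : Γ) (x : S.mfd.M) :
    diff S.mfd S.mfd (fun y => g • y) x = diff A A (fun y => g • y) x.1 := by
  have hs : ContMDiff (model n) (model n) ∞ (Subtype.val ∘ fun y : S.op => g • y) :=
    (A.smooth g).comp contMDiff_subtype_val
  exact congrArg DFunLike.coe ((md_cod hs x).trans (md_dom (A.smooth g) x))

theorem bd_restrict {A : GMfd Γ n} (S : Sub A) : S.mfd.bd = Subtype.val ⁻¹' A.bd :=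
  ModelWithCorners.boundary_open

theorem center_mem {A : GMfd Γ n} (x : A.M) : extChartAt (model n) x x ∈ range (model n) :=
  extChartAt_target_subset_range x (mem_extChartAt_target x)

theorem coef_restrict {A : GMfd Γ n} (S : Sub A) (β : A.M → Euc n → Euc n → ℝ)
    (x : S.mfd.M) (i j : Fin n) :
    coef S.mfd (fun y => β y.1) x i j =ᶠ[𝓝[range (model n)] (extChartAt (model n) x x)]
      coef A β x.1 i j := by
  have h1 := (ext_symm_val (I := model n) S.op x).eventuallyEq_nhds.filter_mono
    (nhdsWithin_le_nhds (s := range (model n)))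
  have h2 := extChartAt_target_mem_nhdsWithin (I := model n) x
  filter_upwards [h1, h2] with y hy hy'
  have hyr : y ∈ range (model n) := extChartAt_target_subset_range x hy'
  have e1 : mfderivWithin 𝓘(ℝ, Euc n) (model n) (extChartAt (model n) x.1).symm
      (range (model n)) y = mfderivWithin 𝓘(ℝ, Euc n) (model n)
        (Subtype.val ∘ (extChartAt (model n) x).symm) (range (model n)) y :=
    (hy.filter_mono nhdsWithin_le_nhds).mfderivWithin_eq hy.eq_of_nhds
  have e2 := mfderiv_comp_mfderivWithin y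
    ((contMDiff_subtype_val (I := model n) (n := ∞) (U := S.op)).mdifferentiableAt inf_ne_zero)
    (mdifferentiableWithinAt_extChartAt_symm hy') ((model n).uniqueMDiffOn y hyr)
  have e3 : ∀ v : Euc n, mfderivWithin 𝓘(ℝ, Euc n) (model n) (extChartAt (model n) x.1).symm
      (range (model n)) y v = mfderivWithin 𝓘(ℝ, Euc n) (model n)
        (extChartAt (model n) x).symm (range (model n)) y v := fun v => by
    rw [e1, e2]
    exact congrArg (fun L : Euc n →L[ℝ] Euc n => L (mfderivWithin 𝓘(ℝ, Euc n) (model n)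
        (extChartAt (model n) x).symm (range (model n)) y v)) (md_val S.op _)
  have e4 : ∀ v : Euc n, cvec (model n) x.1 y v = cvec (model n) x y v := e3
  unfold coef
  rw [e4, e4, hy.eq_of_nhds]
  rfl

theorem pd_congr {s : Set (Euc n)} {y : Euc n} {u u' : Euc n → ℝ} (h : u =ᶠ[𝓝[s] y] u')
    (k : Fin n) : pd s k u =ᶠ[𝓝[s] y] pd s k u' := by
  filter_upwards [h.fderivWithin (𝕜 := ℝ)] with z hz
  unfold pd
  rw [hz]

theorem scal_congr {s : Set (Euc n)} {y : Euc n} (hy : y ∈ s) {G G' : Fin n → Fin n → Euc n → ℝ}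
    (h : ∀ i j, G i j =ᶠ[𝓝[s] y] G' i j) : scal s G y = scal s G' y := by
  have hinv : ∀ᶠ z in 𝓝[s] y, ∀ i j, ginv G i j z = ginv G' i j z := by
    have h1 : ∀ᶠ z in 𝓝[s] y, ∀ i j, G i j z = G' i j z :=
      eventually_all.2 fun i => eventually_all.2 fun j => h i j
    filter_upwards [h1] with z hz i j
    unfold ginv
    simp only [hz]
  have hpd : ∀ᶠ z in 𝓝[s] y, ∀ k i j, pd s k (G i j) z = pd s k (G' i j) z :=
    eventually_all.2 fun k => eventually_all.2 fun i => eventually_all.2 fun j =>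
      pd_congr (h i j) k
  have hchr : ∀ k i j, chr s G k i j =ᶠ[𝓝[s] y] chr s G' k i j := fun k i j => by
    filter_upwards [hinv, hpd] with z h1 h2
    unfold chr
    simp only [h1, h2]
  have h1 := fun k i j => (hchr k i j).eq_of_nhdsWithin hy
  have h2 := fun l k i j => (pd_congr (hchr k i j) l).eq_of_nhdsWithin hy
  have h3 := hinv.self_of_nhdsWithin hy
  unfold scal ric
  simp only [h1, h2, h3]

/-- The restricted metric. -/
def GMetric.restrict {A : GMfd Γ n} (h : GMetric A) (S : Sub A) : GMetric S.mfd where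
  β x := h.β x.1
  lin x := h.lin x.1
  symm x := h.symm x.1
  pos x := h.pos x.1
  smooth x i j := (h.smooth x.1 i j).congr_of_eventuallyEq (coef_restrict S h.β x i j)
    ((coef_restrict S h.β x i j).eq_of_nhdsWithin (center_mem x))
  inv g x v w := by
    rw [diff_smul_restrict]
    exact h.inv g x.1 v w

theorem GMetric.PSC.restrict {A : GMfd Γ n} {h : GMetric A} (hp : h.PSC) (S : Sub A) :
    (h.restrict S).PSC := fun x => by
  have := scal_congr (center_mem x) (coef_restrict S h.β x)
  exact lt_of_lt_of_eq (hp x.1) this.symm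

/-- The coordinates defining the topology of the frame space. -/
def frCoord (A : GMfd Γ n) (e : Frame A) (k : Fin (n + 2)) :
    TangentBundle (model n) A.M × ℝ × ℝ :=
  ((⟨e.pt, (e.vec k).1⟩ : TangentBundle (model n) A.M), (e.vec k).2)

theorem isInducing_frCoord (A : GMfd Γ n) : Topology.IsInducing (frCoord A) := ⟨rfl⟩

theorem continuous_pt (A : GMfd Γ n) : Continuous fun e : Frame A => e.pt :=
  (FiberBundle.continuous_proj (Euc n) (TangentSpace (model n) : A.M → Type)).comp
    (continuous_fst.comp ((continuous_apply 0).comp (isInducing_frCoord A).continuous))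

/-- Frames of the restricted manifold. -/
def Sub.frEquiv {A : GMfd Γ n} (S : Sub A) : Frame S.mfd ≃ {e : Frame A | e.pt ∈ S.U} where
  toFun e := ⟨⟨e.pt.1, e.vec, e.indep⟩, e.pt.2⟩
  invFun e := ⟨⟨e.1.pt, e.2⟩, e.1.vec, e.1.indep⟩
  left_inv _ := rfl
  right_inv _ := rfl

theorem Sub.isInducing_frEquiv {A : GMfd Γ n} (S : Sub A) : Topology.IsInducing S.frEquiv := by
  have h1 : Topology.IsInducing (Pi.map (fun _ : Fin (n + 2) =>
      Prod.map (tanIncl (model n) S.op) (id : ℝ × ℝ → ℝ × ℝ)) ∘ frCoord S.mfd) :=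
    (Topology.IsInducing.piMap fun _ =>
      (isInducing_tanIncl S.op).prodMap Topology.IsInducing.id).comp (isInducing_frCoord S.mfd)
  have h2 : Topology.IsInducing (frCoord A ∘ Subtype.val ∘ S.frEquiv) := h1
  exact Topology.IsInducing.subtypeVal.of_comp_iff.1 ((isInducing_frCoord A).of_comp_iff.1 h2)

/-- Frames of the restricted manifold, as a homeomorphism. -/
def Sub.frHomeo {A : GMfd Γ n} (S : Sub A) : Frame S.mfd ≃ₜ {e : Frame A | e.pt ∈ S.U} :=
  S.frEquiv.toHomeomorphOfIsInducing S.isInducing_frEquiv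

/-- The part of the spin structure over `S`. -/
def Spin.resSet {A : GMfd Γ n} (σ : Spin A) (S : Sub A) : Set σ.Tot :=
  σ.ξ ⁻¹' {e : Frame A | e.pt ∈ S.U}

/-- The restricted action on the spin structure. -/
instance Spin.resAct {A : GMfd Γ n} (σ : Spin A) (S : Sub A) :
    MulAction Γ (σ.resSet S) where
  smul g p := ⟨g • p.1, by
    change (σ.ξ (g • p.1)).pt ∈ S.U
    rw [(σ.lift g p.1).1]
    exact S.inv g _ p.2⟩
  one_smul p := Subtype.ext (one_smul Γ p.1)
  mul_smul g h p := Subtype.ext (mul_smul g h p.1)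

theorem Frame.ext' {A : GMfd Γ n} {e e' : Frame A} (h1 : e.pt = e'.pt) (h2 : e.vec = e'.vec) :
    e = e' := by
  cases e
  cases e'
  simp only at h1 h2
  subst h1 h2
  rfl

/-- The restricted spin structure. -/
@[reducible] def Spin.restrict {A : GMfd Γ n} (σ : Spin A) (S : Sub A) : Spin S.mfd where
  Tot := σ.resSet S
  act := σ.resAct S
  ξ p := ⟨⟨(σ.ξ p.1).pt, p.2⟩, (σ.ξ p.1).vec, (σ.ξ p.1).indep⟩
  cover := (σ.cover.restrictPreimage _).homeomorph_comp S.frHomeo.symm
  two p := by
    rw [← σ.two p.1, ← Subtype.val_injective.encard_image]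
    congr 1
    ext q
    constructor
    · rintro ⟨q, hq, rfl⟩
      exact Frame.ext' (congrArg (fun e : Frame S.mfd => e.pt.1) hq)
        (congrArg (fun e : Frame S.mfd => e.vec) hq)
    · intro hq
      have hq : σ.ξ q = σ.ξ p.1 := hq
      refine ⟨⟨q, ?_⟩, ?_, rfl⟩
      · change (σ.ξ q).pt ∈ S.U
        rw [hq]
        exact p.2
      · have h1 : (σ.ξ q).pt = (σ.ξ p.1).pt := congrArg Frame.pt hq
        have h2 : (σ.ξ q).vec = (σ.ξ p.1).vec := congrArg Frame.vec hq
        exact Frame.ext' (Subtype.ext h1) h2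
  conn x := by
    have e : Subtype.val '' {p : σ.resSet S |
        (⟨(σ.ξ p.1).pt, p.2⟩ : S.op) = x} = {p | (σ.ξ p).pt = x.1} := by
      ext q
      constructor
      · rintro ⟨q, hq, rfl⟩
        exact congrArg Subtype.val hq
      · intro hq
        have hq : (σ.ξ q).pt = x.1 := hq
        refine ⟨⟨q, ?_⟩, Subtype.ext hq, rfl⟩
        change (σ.ξ q).pt ∈ S.U
        rw [hq]
        exact x.2
    have h := σ.conn x.1
    rw [← e] at h
    exact ⟨h.nonempty.of_image, Topology.IsInducing.subtypeVal.isPreconnected_image.1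
      h.isPreconnected⟩
  cont g := ((σ.cont g).comp continuous_subtype_val).subtype_mk _
  lift g p := ⟨Subtype.ext (σ.lift g p.1).1, fun k => by
    rw [diff_smul_restrict]
    exact (σ.lift g p.1).2 k⟩

variable {X : Type} [TopologicalSpace X] [MulAction Γ X]

/-- The restricted triple. -/
@[reducible] def Cycle.restrict (c : Cycle Γ X d) (S : Sub c.L) : Cycle Γ X d where
  L := S.mfd
  σ := c.σ.restrict S
  γ := c.γ.restrict S
  f x := c.f x.1
  f_cont := c.f_cont.comp continuous_subtype_val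
  f_equiv g x := c.f_equiv g x.1
  N := (S.comap c.emb).mfd
  closed := by rw [bd_restrict, c.closed, preimage_empty]
  i x := ⟨c.i x.1, x.2⟩
  emb := (c.emb.restrict fun _ => rfl).1
  range_i := by
    rw [bd_restrict, ← c.range_i]
    ext y
    constructor
    · rintro ⟨x, rfl⟩
      exact ⟨x.1, rfl⟩
    · rintro ⟨x, hx⟩
      refine ⟨⟨x, ?_⟩, Subtype.ext hx⟩
      change c.i x ∈ S.U
      rw [hx]
      exact y.2
  h := c.h.restrict _
  psc := c.psc.restrict _

/-- The core as an invariant clopen set. -/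
def coreSub [Finite Γ] (A : GMfd Γ n) : Sub A :=
  ⟨core A, isClopen_core A, fun g _ hx => core_smul g hx⟩

/-- The part of a triple with trivial action. -/
@[reducible] def Cycle.triv [Finite Γ] (c : Cycle Γ X d) : Cycle Γ X d := c.restrict (coreSub c.L)

end

end Pool.Agent.P.MP_8db816_gt
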